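import Pool.Agent.Lib.MP_ef3f0f_gt.G.Defs

set_option autoImplicit false

/-!
# MP_ef3f0f_gt, Part IV (gluing): the statements

Every statement is a `def S_X : Prop` with its proof in the docstring. A module `G/X.lean` proves
`theorem tX : S_Y → ... → S_X` (the hypotheses are the statements it uses), in the namespace
`Pool.Agent.MPEF`.
-/

namespace Pool.Agent.MPEF

open scoped Pointwise commutatorElement

/-- Presentation basics for `SF h k`: universal property, the relation, generation, uniqueness.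
Proof: `PresentedGroup.toGroup`, `PresentedGroup.closure_range_of`; `FreeGroup.lift` maps
`sfRel h k` to `sfVal` (map_mul, map_list_prod, List.map_ofFn, map_commutatorElement). -/
def S_sf : Prop :=
  ∀ (h k : ℕ),
    (∀ (Γ : Type) [Group Γ] (x : Fin h × Bool → Γ) (s : Fin k → Γ), sfVal x s = 1 →
      ∃ ρ : SF h k →* Γ, (∀ i, ρ (sfX i) = x i) ∧ ∀ j, ρ (sfS j) = s j) ∧
    sfVal (sfX : Fin h × Bool → SF h k) (sfS : Fin k → SF h k) = 1 ∧
    Subgroup.closure (Set.range (sfX : Fin h × Bool → SF h k) ∪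
      Set.range (sfS : Fin k → SF h k)) = ⊤ ∧
    (∀ (Γ : Type) [Group Γ] (ρ ρ' : SF h k →* Γ), (∀ i, ρ (sfX i) = ρ' (sfX i)) →
      (∀ j, ρ (sfS j) = ρ' (sfS j)) → ρ = ρ')

/-- Transport of a system along an isomorphism, a reindexing and conjugation of the boundaries.
Proof. `hy`: `ρ (θ (b' i)) = ρ y * ρ (b (f i)) * (ρ y)⁻¹ ∈ hyp` by `conj`. `dis`: by `Iconj`
`I (ρ (θ (b' i))) = ρ y_i • I (ρ (b (f i)))`; if `ρ (θ g) • I (ρθb'_i)` meets `I (ρθb'_j)` then
`ρ (y_j⁻¹ θ(g) y_i) • I (ρ b_{f i})` meets `I (ρ b_{f j})`, so `f i = f j`, `i = j`, and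
`y_i⁻¹ θ(g) y_i` is a power of `b (f i)`, hence `θ g` a power of `θ (b' i)`, hence `g` a power of
`b' i`. `cos`: `x ↦ θ⁻¹ (y_i x y_i⁻¹)` preserves all. -/
def S_SysMap : Prop :=
  ∀ (P X Q Q' κ κ' : Type) [Group P] [TopologicalSpace X] [MulAction P X] [Group Q] [Group Q']
    (A : Arc P X), A.Ok → ∀ (ρ : Q →* P) (b : κ → Q), Sys A ρ b →
    ∀ (θ : Q' ≃* Q) (f : κ' → κ), Function.Injective f → ∀ b' : κ' → Q',
      (∀ i, ∃ y : Q, θ (b' i) = y * b (f i) * y⁻¹) → Sys A (ρ.comp θ.toMonoidHom) b'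

/-- Conjugation of the representation by an element of `P`.
Proof. `t ρ(g) t⁻¹ • I (t ρ(b i) t⁻¹) = t • ρ g • I (ρ (b i))`, and the same for `I (t ρ(b j) t⁻¹)`;
`inj` by `Nconj` (for `t⁻¹`). -/
def S_SysConj : Prop :=
  ∀ (P X Q κ : Type) [Group P] [TopologicalSpace X] [MulAction P X] [Group Q]
    (A : Arc P X), A.Ok → ∀ (ρ : Q →* P) (b : κ → Q), Sys A ρ b → ∀ t : P,
      Sys A ((MulAut.conj t).toMonoidHom.comp ρ) b

/-- Permutation of the boundaries. Proof. It suffices to treat an adjacent transposition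
(`Equiv.Perm` of `Fin k` is generated by them, `Equiv.Perm.mclosure_swap_castSucc_succ`; or
bubble sort). In any group
`U V = (U V U⁻¹) U`, so `s_i ↦ s_i s_{i+1} s_i⁻¹`, `s_{i+1} ↦ s_i` (the others fixed, also the handles)
defines an endomorphism `θ` of `SF h k` (`S_sf`), with inverse `s_i ↦ s_{i+1}`,
`s_{i+1} ↦ s_{i+1}⁻¹ s_i s_{i+1}`. Use `S_SysMap` for `p ∘ ρ`, `θ`, `f` = the transposition,
`b' = sfS`; and `ρ ∘ θ` for the new state. -/
def S_StPerm : Prop :=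
  ∀ (P X Γ : Type) [Group P] [TopologicalSpace X] [MulAction P X] [Group Γ]
    (A : Arc P X), A.Ok → ∀ (p : Γ →* P) (h k : ℕ) (c : Fin k → Γ), St A p h k c →
    ∀ π : Equiv.Perm (Fin k), St A p h k (c ∘ π)

/-- Normal form for a group generated by two subgroups with a common subgroup `Z`.
Proof. First: if `AW s e g` and `z ∈ Z` then `AW s e (z g)` (absorb `z` in the first letter:
`z x ∈ K_i ∖ Z`). Then induct over `Subgroup.closure_induction_left` (or over products) for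
`K₁ ⊔ K₂ = ⊤`: the set of `g` with the property contains `1` and is stable under left multiplication
by `y ∈ K₁ ∪ K₂`: if `g ∈ Z` then `y g` is in `K_i`, so in `Z` or a word of length one; if
`g = x g'` with `x` in the same `K_i ∖ Z` as `y` then `y x ∈ K_i`; if `y x ∉ Z` done, if `y x ∈ Z` then
`y g = (y x) g' ` with `g'` a word (or `g = x` and `y g = y x ∈ Z`), absorb. If `y ∈ K_i ∖ Z` and the first letter of `g` is in the other
group: `cons`. If `y ∈ Z`: absorb. -/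
def S_AW : Prop :=
  ∀ (Q : Type) [Group Q] (K₁ K₂ Z : Subgroup Q), K₁ ⊔ K₂ = ⊤ → Z ≤ K₁ → Z ≤ K₂ →
    ∀ g : Q, g ∈ Z ∨ ∃ s e, AW K₁ K₂ Z s e g

/-- **Amalgam lemma** (IV.3). Proof. Write `ℓ = b₁ none`, `ℓ' = b₂ none`, `I = I (ρ₁ ℓ)`,
`I' = I (ρ₂ ℓ') = I ((ρ₁ ℓ)⁻¹) = (closure I)ᶜ`, and so `I = (closure I')ᶜ`, `closure I' = Iᶜ`.
`j₁`, `j₂` are injective (as
`ρ₁`, `ρ₂` are modulo `N`: `j₁ x = 1` gives `ρ₁ x = 1`; `1 ∈ N`? not needed: if `ρ₁ x = 1` then
`1 • I ∩ I ≠ ∅` gives `x ∈ zpowers ℓ`, `x = ℓ^n`; and with `ℓ` replaced by other cosets: for `y` with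
`y ∉ zpowers ℓ`: `ρ₁ (y⁻¹ x y) = 1` so `y⁻¹ x y ∈ zpowers ℓ` too; simplest: add the hypothesis
`1 ∈ A.N`, which is in the statement).
Let `K₁ = j₁.range`, `K₂ = j₂.range`, `Z = zpowers (j₁ ℓ) = zpowers (j₂ ℓ')`.
For `x ∈ Q₁ ∖ ⟨ℓ⟩`: `ρ₁ x • I` is disjoint from `I`, so `ρ₁ x • closure I ⊆ Iᶜ = closure I'`. For
`x ∈ Q₂ ∖ ⟨ℓ'⟩`: `ρ₂ x • closure I' ⊆ I'ᶜ = closure I`.
So (induction over `AW`): if `AW s e g` then `ρ g` maps `closure I` (`e = false`) resp. `closure I'`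
(`e = true`) into `closure I'` (`s = false`) resp. `closure I` (`s = true`), and more precisely into
`x₁ • closure I` resp. `x₁ • closure I'` where `x₁` is the first letter.
`(s4)`: for the first system, any two arcs `U = ρ₁ x • I_i`, `V = ρ₁ y • I_j`: by `cos` and `dis`
there is a third arc `W` of the family disjoint from `U` and from `V` (among three different cosets
of the boundary subgroup of `i` each of `U`, `V` meets at most one), `W` is open and nonempty, so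
`closure U ∪ closure V ≠ X`. The same for the second system.
`inj`: let `ρ g ∈ N`. If `g ∈ K₁` or `K₂`: `inj` of the systems. Otherwise `AW s e g` (by `S_AW`). If `s = e = false`:
`ρ g • I = I` (`fix`) and `ρ g • I ⊆ closure I' = Iᶜ`, contradiction to `I ≠ ∅`. `s = e = true`:
similarly with `I'`. If `s = false`, `e = true`: `closure I' = ρ g • closure I' ⊆ x₁ • closure I`, `x₁` from
`Q₁`, so `X = I ∪ closure I' ⊆ closure I ∪ x₁ • closure I`, against (s4). `s = true`, `e = false`: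
similarly for `Q₂`.
`dis`: let `ρ g • (arc of i)` meet the arc of `j`. The arcs of the first system other than `I` are
disjoint from `I`, so in `closure I'`; those of the second one in `closure I`.
Case `g ∈ Z`: then `g = j₁ (ℓ^n) = j₂ (ℓ'^(-n))`, use the system of `i` if `j` is in the same system;
if `j` is in the other one then the two arcs are open, one in `closure I'`, the other in `closure I`,
so they are disjoint (an open set contained in `closure I'` and one contained in `closure I`: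
the first is disjoint from `I` so from `closure I`).
Case `AW s e g` and the last letter is in the group of `i`: write `g = g' x_n`; `x_n • (arc of i)` is disjoint
from the arc `I` resp. `I'` of the same system (`dis` with `i ≠ none`), so it is in `closure I'`
resp. `closure I`, and `g'` (if it is not empty) is alternating, ending with a letter of the other group.
Case last letter in the other group: the arc of `i` is in `closure I'` (i first) and the last
letter maps it as above. So if `n ≥ 2` or the last letter is in the other group then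
`g • (arc of i)` is contained in `x₁ • closure I`, `x₁ ∈ Q₁ ∖ ⟨ℓ⟩`, or in `x₁ • closure I'`, `x₁ ∈ Q₂ ∖ ⟨ℓ'⟩`;
the first one is disjoint from all arcs of the first system except
possibly `I` [for `I_j`, `j ≠ none`: `x₁ • I` is disjoint from the open set `I_j` by `dis`, so is its
closure] and contained in `closure I'`, so disjoint from the (open) arcs of the second system (contained in
`closure I`; use that `closure I'` is disjoint from `I`... `I'_j` is open, contained in `closure I`, and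
`closure I' = Iᶜ`: a point of `I'_j ∩ closure I'`: `I'_j` is a neighbourhood, so it meets `I'`; but `I'_j` is
disjoint from `I'` by `dis`).
If `n = 1` and the letter is in the group of `i`: `j` in the same system: `dis` of this system
gives `i = j`, `g ∈ zpowers`; `j` in the other: disjoint as in the case `g ∈ Z`.
`cos`: the images under `j₁` (or `j₂`), which is injective, so `j₁ x ∈ zpowers (j₁ b)` iff
`x ∈ zpowers b`. -/
def S_Amal : Prop :=
  ∀ (P X Q₁ Q₂ Q κ₁ κ₂ : Type) [Group P] [TopologicalSpace X] [MulAction P X] [Group Q₁]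
    [Group Q₂] [Group Q] (A : Arc P X), A.Ok → (1 : P) ∈ A.N →
    ∀ (ρ₁ : Q₁ →* P) (b₁ : Option κ₁ → Q₁) (ρ₂ : Q₂ →* P) (b₂ : Option κ₂ → Q₂)
      (ρ : Q →* P) (j₁ : Q₁ →* Q) (j₂ : Q₂ →* Q),
      Sys A ρ₁ b₁ → Sys A ρ₂ b₂ → (∀ x, ρ (j₁ x) = ρ₁ x) → (∀ x, ρ (j₂ x) = ρ₂ x) →
      j₂ (b₂ none) = (j₁ (b₁ none))⁻¹ → j₁.range ⊔ j₂.range = ⊤ →
      Sys A ρ (Sum.elim (fun i => j₁ (b₁ (some i))) fun i => j₂ (b₂ (some i)))

/-- Gluing of a pair of pants to a state along one boundary. Proof. Let `ρ₁` be the representation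
of the state, `ρ₂⁰` the one of the pants. `ρ₁ s₀ ∼ c 0 ∼ (d 0)⁻¹ ∼ (ρ₂⁰ s₀)⁻¹`: choose `t ∈ Γ` with
`t ρ₂⁰(s₀) t⁻¹ = ρ₁(s₀)⁻¹` and put `ρ₂ = t ρ₂⁰ t⁻¹` (`S_SysConj` with `p t`). Define
`ρ : SF h (k+2) → Γ` by `X, T ↦ ρ₁`, `s₀ ↦ ρ₂ s₁`, `s₁ ↦ ρ₂ s₂`, `s_{j+2} ↦ ρ₁ s_{j+1}`; the relation holds
as `ρ₂(s₁) ρ₂(s₂) = ρ₂(s₀)⁻¹ = ρ₁(s₀)`. `j₁ : SF h (k+1) → SF h (k+2)`: `X, T ↦ X, T`, `s₀ ↦ s₀ s₁`,
`s_{j+1} ↦ s_{j+2}`. `j₂ : SF 0 3 → SF h (k+2)`: `s₀ ↦ (s₀ s₁)⁻¹`, `s₁ ↦ s₀`, `s₂ ↦ s₁`. `S_Amal` with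
`κ₁ = Fin k`, `κ₂ = Fin 2` (reindex with `S_SysMap`, `θ = refl`: `Option (Fin k) → Fin (k+1)`,
`none ↦ 0`, `some j ↦ j.succ`), then reindex the result from `Fin k ⊕ Fin 2` to `Fin (k+2)`. -/
def S_StAmal : Prop :=
  ∀ (P X Γ : Type) [Group P] [TopologicalSpace X] [MulAction P X] [Group Γ]
    (A : Arc P X), A.Ok → (1 : P) ∈ A.N → ∀ (p : Γ →* P) (h k : ℕ) (c : Fin (k + 1) → Γ)
    (d : Fin 3 → Γ), St A p h (k + 1) c → St A p 0 3 d → IsConj (c 0) (d 0)⁻¹ →
    St A p h (k + 2) (Fin.cons (d 1) (Fin.cons (d 2) fun j : Fin k => c j.succ))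

/-- Normal form for HNN words. Proof. The set of the `g` with the property contains `1`, and is
stable under left multiplication by `K` and by `t`, `t⁻¹`. For the latter: `t^ε x₀ w x₁` with
`HW .. ε₁ e w`: if `ε₁ = ε` or `x₀` is not in the forbidden subgroup: `cons`. Otherwise
(`ε = true`, `ε₁ = false`, `x₀ ∈ Z`): `w = t⁻¹` or `w = t⁻¹ x w'`; `t x₀ t⁻¹ ∈ Z' ≤ K`, so
`t x₀ w x₁ = (t x₀ t⁻¹) x₁ ∈ K`, resp. `= ((t x₀ t⁻¹) x) w' x₁`. Similarly `ε = false`. -/
def S_HW : Prop :=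
  ∀ (Q : Type) [Group Q] (K Z Z' : Subgroup Q) (t : Q), K ⊔ Subgroup.zpowers t = ⊤ →
    Z ≤ K → Z' ≤ K → (∀ z ∈ Z, t * z * t⁻¹ ∈ Z') → (∀ z ∈ Z', t⁻¹ * z * t ∈ Z) →
    ∀ g : Q, g ∈ K ∨ ∃ ε e, ∃ x₀ ∈ K, ∃ x₁ ∈ K, ∃ w, HW K Z Z' t ε e w ∧ g = x₀ * w * x₁

/-- **HNN lemma** (IV.4). Proof. `ℓ = b none`, `ℓ' = b (some none)`, `I = I (ρ₀ ℓ)`, `I' = I (ρ₀ ℓ')`.
`ρ(t) ρ₀(ℓ) ρ(t)⁻¹ = ρ₀(ℓ')⁻¹`, so `ρ t • I = (closure I')ᶜ`. Put `J(+) = I`, `J'(+) = I'`, `J(-) = I'`,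
`J'(-) = I`. Then `ρ(t)^ε • J(ε)ᶜ ⊆ closure J'(ε)`: for `ε = +`: `ρ t • Iᶜ = closure I'`. For `-`: from
`ρ t • I = (closure I')ᶜ` we get `ρ t • closure I = closure ((closure I')ᶜ)` and (by `Iinv` twice)
`I' = (closure ((closure I')ᶜ))ᶜ`, so `I'ᶜ = ρ t • closure I`. `K = j.range`, `Z = zpowers (j ℓ)`,
`Z' = zpowers (j ℓ')`; `t Z t⁻¹ = Z'`. By `S_HW` every `g` is in `K` or `x₀ w x₁`.
If `HW ε e w` then `ρ w • J(e)ᶜ ⊆ closure J'(ε)`, by induction: for `t^ε x w'`, `HW ε' e w'`: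
`ρ w' • J(e)ᶜ ⊆ closure J'(ε')`, and `ρ x • J'(ε')` is disjoint from `J(ε)` by `dis` (if the arcs
`J'(ε')`, `J(ε)` are different boundaries this is immediate; they are the same boundary iff
`ε' ≠ ε`, and then `x` is not in its subgroup as the word is reduced: `ε = +`, `ε' = -`: `J'(-) = I = J(+)`,
`x ∉ Z`; `ε = -`, `ε' = +`: `J'(+) = I' = J(-)`, `x ∉ Z'`), so (`J(ε)` open) `ρ x • closure J'(ε') ⊆ J(ε)ᶜ`.
`inj`: if `g ∈ K`: `inj` of the system. If `g = x₀ w x₁` and `ρ g ∈ N`: `N` fixes the arcs: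
`ρ g` fixes the arc `J := I` and also `ρ (x₁)⁻¹ • J(e)` (it is an arc `I (ρ (x₁⁻¹ ℓ x₁))` or with `ℓ'`), so it
fixes the complement of `ρ(x₁)⁻¹ • J(e)`; and `ρ g` maps this complement into `ρ x₀ • closure J'(ε)`. So
`X = (ρ(x₁)⁻¹ • J(e)) ∪ (ρ x₀ • closure J'(ε))`, against (s4) (see `S_Amal`: for any two arcs `U`, `V` of the family of
the system there is a third one, open, nonempty and disjoint from both, so from their closures).
`dis`: for boundaries `i`, `i'` (of index `some (some _)`) and `g`: `g ∈ K`: `dis` of the system (and `j` is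
injective, by `inj` and `1 ∈ N`). `g = x₀ w x₁`: `ρ x₁ • I_i` is disjoint from `J(e)`, so
`ρ g • I_i ⊆ ρ x₀ • closure J'(ε)`, and `ρ x₀ • J'(ε)` is disjoint from the open set `I_{i'}`, so is its closure.
`cos`: images of `j`. -/
def S_HNN : Prop :=
  ∀ (P X Q₀ Q κ : Type) [Group P] [TopologicalSpace X] [MulAction P X] [Group Q₀]
    [Group Q] (A : Arc P X), A.Ok → (1 : P) ∈ A.N →
    ∀ (ρ₀ : Q₀ →* P) (b : Option (Option κ) → Q₀) (ρ : Q →* P) (j : Q₀ →* Q) (t : Q),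
      Sys A ρ₀ b → (∀ x, ρ (j x) = ρ₀ x) →
      t * j (b none) * t⁻¹ = (j (b (some none)))⁻¹ → j.range ⊔ Subgroup.zpowers t = ⊤ →
      Sys A ρ fun i => j (b (some (some i)))

/-- Gluing two boundaries of a state. Proof. `ρ₀` the representation of the state;
`ρ₀ s₀ ∼ c 0 ∼ (c 1)⁻¹ ∼ (ρ₀ s₁)⁻¹`: choose `t₀ ∈ Γ` with `t₀ ρ₀(s₀) t₀⁻¹ = ρ₀(s₁)⁻¹`. `ρ : SF (h+1) k → Γ`:
the first `h` handles and `s_j ↦ ρ₀ s_{j+2}` as before, `X_h ↦ ρ₀ s₀`, `T_h ↦ t₀`; relation: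
`[ρ₀ s₀, t₀] = ρ₀(s₀) t₀ ρ₀(s₀)⁻¹ t₀⁻¹ = ρ₀(s₀) ρ₀(s₁)` (`List.ofFn_succ'` for the handles).
`j : SF h (k+2) → SF (h+1) k`: handles to the first `h` handles, `s₀ ↦ X_h`, `s₁ ↦ T_h X_h⁻¹ T_h⁻¹`,
`s_{j+2} ↦ s_j`. `t = T_h`. `S_HNN` with `κ = Fin k` (reindex `Option (Option (Fin k)) → Fin (k+2)` by
`S_SysMap`). -/
def S_StHNN : Prop :=
  ∀ (P X Γ : Type) [Group P] [TopologicalSpace X] [MulAction P X] [Group Γ]
    (A : Arc P X), A.Ok → (1 : P) ∈ A.N → ∀ (p : Γ →* P) (h k : ℕ) (c : Fin (k + 2) → Γ),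
    St A p h (k + 2) c → IsConj (c 0) (c 1)⁻¹ → St A p (h + 1) k fun j : Fin k => c j.succ.succ

/-- Main gluing induction. Proof. Consider states `(h, k, U, c)`: `U` a nonempty finite set of pants
(used), `c : Fin k → Fin n × Fin 3` injective with values in cuffs of `U` (the open cuffs), with
(i) `St A p h k (fun j => d (c j).1 (c j).2)`, (ii) for every cuff `x` of `U` not in the range of `c`
(glued) `σ x` is a cuff of `U` and not in the range of `c`, (iii) `2 h + k = |U| + 2`. Start: `U = {i₀}`, `c` = the three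
cuffs, `h = 0`, `k = 3`. If `k = 0`: `2 h = |U| + 2 ≥ 3`, so `h ≥ 2`, done. If `k ≥ 1` let `x = c 0`.
If the pants of `σ x` is not in `U`: permute its cuffs so that `σ x` is the cuff `0` (`S_StPerm` with `h = 0`, `k = 3`)
and use `S_StAmal`; `U` gets one more element, `k` increases by one, (iii) ok. (ii): the newly glued
cuffs are `x` and `σ x`.
If it is in `U` then `σ x` is in the range of `c` (else by (ii) `σ (σ x) = x` is not in the range), `σ x ≠ x`;
permute so that it is `c 1` (`S_StPerm`), then `S_StHNN`: `h` increases by one, `k` decreases by two.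
The number `k + 3 (n - |U|)` decreases by two in each step. -/
def S_Glue : Prop :=
  ∀ (P X Γ : Type) [Group P] [TopologicalSpace X] [MulAction P X] [Group Γ]
    (A : Arc P X), A.Ok → (1 : P) ∈ A.N → ∀ (p : Γ →* P) (n : ℕ), 1 ≤ n →
    ∀ d : Fin n → Fin 3 → Γ, (∀ i, St A p 0 3 (d i)) →
    ∀ σ : Fin n × Fin 3 → Fin n × Fin 3, (∀ x, σ (σ x) = x) → (∀ x, σ x ≠ x) →
      (∀ x, IsConj (d x.1 x.2) (d (σ x).1 (σ x).2)⁻¹) →
      ∃ h : ℕ, 2 ≤ h ∧ ∃ c : Fin 0 → Γ, St A p h 0 c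

/-- The end: `SF h 0` is the surface group. Proof. There is an isomorphism (or just a homomorphism with
a left inverse) `SurfaceGroup h → SF h 0`, `of i ↦ sfX i`; compose with `ρ`. -/
def S_SurfEnd : Prop :=
  ∀ (P X Γ : Type) [Group P] [TopologicalSpace X] [MulAction P X] [Group Γ]
    (A : Arc P X) (p : Γ →* P) (h : ℕ) (c : Fin 0 → Γ), St A p h 0 c →
    ∃ f : SurfaceGroup h →* Γ, ∀ g, p (f g) ∈ A.N → g = 1

end Pool.Agent.MPEF
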