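import Pool.Agent.Lib.MP_ef3f0f_gt.G.Spec

set_option autoImplicit false

/-! # MP_ef3f0f_gt, Part IV: alternating normal form for two subgroups -/

namespace Pool.Agent.MPEF

open scoped Pointwise commutatorElement

private theorem aw_absorb {Q : Type} [Group Q] {K₁ K₂ Z : Subgroup Q} (h1 : Z ≤ K₁) (h2 : Z ≤ K₂)
    {s e : Bool} {g : Q} (h : AW K₁ K₂ Z s e g) {z : Q} (hz : z ∈ Z) :
    AW K₁ K₂ Z s e (z * g) := by
  cases h with
  | one₁ x hx hxZ =>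
    exact AW.one₁ _ (mul_mem (h1 hz) hx) fun h => hxZ ((Subgroup.mul_mem_cancel_left Z hz).mp h)
  | one₂ x hx hxZ =>
    exact AW.one₂ _ (mul_mem (h2 hz) hx) fun h => hxZ ((Subgroup.mul_mem_cancel_left Z hz).mp h)
  | cons₁ x g e hx hxZ hg =>
    rw [← mul_assoc]
    exact AW.cons₁ _ _ _ (mul_mem (h1 hz) hx)
      (fun h => hxZ ((Subgroup.mul_mem_cancel_left Z hz).mp h)) hg
  | cons₂ x g e hx hxZ hg =>
    rw [← mul_assoc]
    exact AW.cons₂ _ _ _ (mul_mem (h2 hz) hx)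
      (fun h => hxZ ((Subgroup.mul_mem_cancel_left Z hz).mp h)) hg

private theorem aw_left₁ {Q : Type} [Group Q] {K₁ K₂ Z : Subgroup Q} (h1 : Z ≤ K₁) (h2 : Z ≤ K₂)
    {y : Q} (hy : y ∈ K₁) {g : Q} (h : g ∈ Z ∨ ∃ s e, AW K₁ K₂ Z s e g) :
    y * g ∈ Z ∨ ∃ s e, AW K₁ K₂ Z s e (y * g) := by
  rcases h with hg | ⟨s, e, h⟩
  · by_cases hc : y * g ∈ Z
    · exact Or.inl hc
    · exact Or.inr ⟨false, false, AW.one₁ _ (mul_mem hy (h1 hg)) hc⟩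
  · by_cases hyZ : y ∈ Z
    · exact Or.inr ⟨s, e, aw_absorb h1 h2 h hyZ⟩
    cases h with
    | one₁ x hx hxZ =>
      by_cases hc : y * g ∈ Z
      · exact Or.inl hc
      · exact Or.inr ⟨false, false, AW.one₁ _ (mul_mem hy hx) hc⟩
    | one₂ x hx hxZ =>
      exact Or.inr ⟨false, true, AW.cons₁ _ _ _ hy hyZ (AW.one₂ _ hx hxZ)⟩
    | cons₁ x g e hx hxZ hg =>
      rw [← mul_assoc]
      by_cases hc : y * x ∈ Z
      · exact Or.inr ⟨true, e, aw_absorb h1 h2 hg hc⟩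
      · exact Or.inr ⟨false, e, AW.cons₁ _ _ _ (mul_mem hy hx) hc hg⟩
    | cons₂ x g e hx hxZ hg =>
      exact Or.inr ⟨false, e, AW.cons₁ _ _ _ hy hyZ (AW.cons₂ _ _ _ hx hxZ hg)⟩

private theorem aw_left₂ {Q : Type} [Group Q] {K₁ K₂ Z : Subgroup Q} (h1 : Z ≤ K₁) (h2 : Z ≤ K₂)
    {y : Q} (hy : y ∈ K₂) {g : Q} (h : g ∈ Z ∨ ∃ s e, AW K₁ K₂ Z s e g) :
    y * g ∈ Z ∨ ∃ s e, AW K₁ K₂ Z s e (y * g) := by
  rcases h with hg | ⟨s, e, h⟩
  · by_cases hc : y * g ∈ Z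
    · exact Or.inl hc
    · exact Or.inr ⟨true, true, AW.one₂ _ (mul_mem hy (h2 hg)) hc⟩
  · by_cases hyZ : y ∈ Z
    · exact Or.inr ⟨s, e, aw_absorb h1 h2 h hyZ⟩
    cases h with
    | one₂ x hx hxZ =>
      by_cases hc : y * g ∈ Z
      · exact Or.inl hc
      · exact Or.inr ⟨true, true, AW.one₂ _ (mul_mem hy hx) hc⟩
    | one₁ x hx hxZ =>
      exact Or.inr ⟨true, false, AW.cons₂ _ _ _ hy hyZ (AW.one₁ _ hx hxZ)⟩
    | cons₂ x g e hx hxZ hg =>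
      rw [← mul_assoc]
      by_cases hc : y * x ∈ Z
      · exact Or.inr ⟨false, e, aw_absorb h1 h2 hg hc⟩
      · exact Or.inr ⟨true, e, AW.cons₂ _ _ _ (mul_mem hy hx) hc hg⟩
    | cons₁ x g e hx hxZ hg =>
      exact Or.inr ⟨true, e, AW.cons₂ _ _ _ hy hyZ (AW.cons₁ _ _ _ hx hxZ hg)⟩

theorem tAW : S_AW := by
  intro Q _ K₁ K₂ Z htop h1 h2 g
  have hg : g ∈ Subgroup.closure ((K₁ : Set Q) ∪ (K₂ : Set Q)) := by
    rw [← Subgroup.sup_eq_closure, htop]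
    exact Subgroup.mem_top g
  induction hg using Subgroup.closure_induction_left with
  | one => exact Or.inl (one_mem Z)
  | mul_left x hx y _ ih =>
    rcases hx with hx | hx
    · exact aw_left₁ h1 h2 hx ih
    · exact aw_left₂ h1 h2 hx ih
  | inv_mul_cancel x hx y _ ih =>
    rcases hx with hx | hx
    · exact aw_left₁ h1 h2 (inv_mem hx) ih
    · exact aw_left₂ h1 h2 (inv_mem hx) ih

end Pool.Agent.MPEF
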