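import Pool.Agent.Lib.MP_ef3f0f_gt.G.Spec

set_option autoImplicit false

/-! # MP_ef3f0f_gt, Part IV: the amalgam combination lemma -/

namespace Pool.Agent.MPEF

open scoped Pointwise commutatorElement

private theorem am_clos {P X : Type} [Group P] [TopologicalSpace X] [MulAction P X] (g : P)
    (hg : Continuous fun x : X => g • x) (S T : Set X) (hT : IsOpen T)
    (h : Disjoint (g • S) T) : Disjoint (g • closure S) T := by
  rw [Set.disjoint_left] at h ⊢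
  rintro _ ⟨y, hy, rfl⟩ hyT
  obtain ⟨z, hz1, hz2⟩ := mem_closure_iff.mp hy _ (hT.preimage hg) hyT
  exact h ⟨z, hz2, rfl⟩ hz1

/-- one half of the data of the amalgam lemma, seen in the big group -/
private structure AmHf {P X Q κ : Type} [Group P] [TopologicalSpace X] [MulAction P X] [Group Q]
    (N : Set P) (ρ : Q →* P) (K Z : Subgroup Q) (I I' : Set X) (U : κ → Set X)
    (β : κ → Q) : Prop where
  sub : ∀ x ∈ K, x ∉ Z → ρ x • closure I ⊆ closure I'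
  four : ∀ x ∈ K, x ∉ Z → ∃ w, w ∉ I ∧ w ∉ ρ x • closure I
  arc : ∀ i, ∀ x ∈ K, ρ x • U i ⊆ closure I'
  arc' : ∀ i, ∀ x ∈ K, x ∉ Z → Disjoint (ρ x • closure I) (U i)
  arc0 : ∀ i, Disjoint (closure I) (U i)
  inj : ∀ g ∈ K, ρ g ∈ N → g = 1
  dis : ∀ g ∈ K, ∀ i j, ((ρ g • U i) ∩ U j).Nonempty → i = j ∧ g ∈ Subgroup.zpowers (β i)
  cos : ∀ i, ∃ x y, x ∉ Subgroup.zpowers (β i) ∧ y ∉ Subgroup.zpowers (β i) ∧
    x⁻¹ * y ∉ Subgroup.zpowers (β i)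

private theorem am_half {P X Q₁ Q κ : Type} [Group P] [TopologicalSpace X] [MulAction P X]
    [Group Q₁] [Group Q] {A : Arc P X} (hA : A.Ok) (hN : (1 : P) ∈ A.N) {ρ₁ : Q₁ →* P}
    {b : Option κ → Q₁} {ρ : Q →* P} {j : Q₁ →* Q} (hS : Sys A ρ₁ b)
    (hρ : ∀ x, ρ (j x) = ρ₁ x) (I' : Set X) (hI' : closure I' = (A.I (ρ₁ (b none)))ᶜ) :
    AmHf A.N ρ j.range (Subgroup.zpowers (j (b none))) (A.I (ρ₁ (b none))) I'
      (fun i : κ => A.I (ρ₁ (b (some i)))) (fun i : κ => j (b (some i))) := by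
  have hinj : Function.Injective j := by
    rw [injective_iff_map_eq_one]
    intro x hx
    apply hS.inj
    rw [← hρ, hx, map_one]
    exact hN
  have hzp : ∀ x y : Q₁, j x ∈ Subgroup.zpowers (j y) ↔ x ∈ Subgroup.zpowers y := by
    intro x y
    rw [Subgroup.mem_zpowers_iff, Subgroup.mem_zpowers_iff]
    constructor
    · rintro ⟨n, hn⟩
      exact ⟨n, hinj (by rw [map_zpow, hn])⟩
    · rintro ⟨n, hn⟩
      exact ⟨n, by rw [← map_zpow, hn]⟩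
  have hopen : ∀ i, IsOpen (A.I (ρ₁ (b i))) := fun i => hA.op _ (hS.hy i)
  have hdis : ∀ (x : Q₁) (i i' : Option κ), ¬ (i = i' ∧ x ∈ Subgroup.zpowers (b i)) →
      Disjoint (ρ₁ x • A.I (ρ₁ (b i))) (A.I (ρ₁ (b i'))) := by
    intro x i i' h
    by_contra hc
    rw [Set.not_disjoint_iff_nonempty_inter] at hc
    exact h (hS.dis x i i' hc)
  have hdisc : ∀ (x : Q₁) (i i' : Option κ), ¬ (i = i' ∧ x ∈ Subgroup.zpowers (b i)) →
      Disjoint (ρ₁ x • closure (A.I (ρ₁ (b i)))) (A.I (ρ₁ (b i'))) := fun x i i' h =>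
    am_clos _ (hA.cont _) _ _ (hopen i') (hdis x i i' h)
  constructor
  · rintro _ ⟨x, rfl⟩ hx
    rw [hρ, hI']
    rw [hzp] at hx
    exact (hdisc x none none fun h => hx h.2).subset_compl_right
  · rintro _ ⟨x, rfl⟩ hx
    rw [hρ]
    rw [hzp] at hx
    obtain ⟨u, v, hu, hv, huv⟩ := hS.cos none
    obtain ⟨c, hc1, hc2⟩ : ∃ c, c ∉ Subgroup.zpowers (b none) ∧
        x⁻¹ * c ∉ Subgroup.zpowers (b none) := by
      by_cases h : x⁻¹ * u ∈ Subgroup.zpowers (b none)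
      · refine ⟨v, hv, fun h' => huv ?_⟩
        have h2 := mul_mem (inv_mem h) h'
        have h3 : (x⁻¹ * u)⁻¹ * (x⁻¹ * v) = u⁻¹ * v := by group
        rwa [h3] at h2
      · exact ⟨u, hu, h⟩
    obtain ⟨w, hw⟩ := hA.ne _ (hS.hy none)
    refine ⟨ρ₁ c • w, ?_, ?_⟩
    · intro h
      exact (Set.disjoint_left.mp (hdis c none none fun h' => hc1 h'.2)) ⟨w, hw, rfl⟩ h
    · rintro ⟨y, hy, hyw⟩
      have hyw' : ρ₁ x • y = ρ₁ c • w := hyw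
      have h1 : ρ₁ (c⁻¹ * x) • y = w := by
        rw [map_mul, mul_smul, hyw', map_inv, inv_smul_smul]
      have h2 : c⁻¹ * x ∉ Subgroup.zpowers (b none) := by
        intro h
        apply hc2
        have := inv_mem h
        rwa [mul_inv_rev, inv_inv] at this
      exact (Set.disjoint_left.mp (hdisc (c⁻¹ * x) none none fun h' => h2 h'.2)) ⟨y, hy, h1⟩ hw
  · rintro i _ ⟨x, rfl⟩
    rw [hρ, hI']
    exact (hdis x (some i) none fun h => by simp at h).subset_compl_right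
  · rintro i _ ⟨x, rfl⟩ _
    rw [hρ]
    exact hdisc x none (some i) fun h => by simp at h
  · intro i
    have h := hdisc 1 none (some i) fun h => by simp at h
    rwa [map_one, one_smul] at h
  · rintro _ ⟨x, rfl⟩ hx
    rw [hρ] at hx
    rw [hS.inj x hx, map_one]
  · rintro _ ⟨x, rfl⟩ i i' h
    rw [hρ] at h
    obtain ⟨h1, h2⟩ := hS.dis x (some i) (some i') h
    exact ⟨Option.some_injective _ h1, (hzp _ _).mpr h2⟩
  · intro i
    obtain ⟨x, y, hx, hy, hxy⟩ := hS.cos (some i)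
    refine ⟨j x, j y, fun h => hx ((hzp _ _).mp h), fun h => hy ((hzp _ _).mp h), fun h => hxy ?_⟩
    rw [← map_inv, ← map_mul] at h
    exact (hzp _ _).mp h

private theorem am_swap {Q : Type} [Group Q] {K₁ K₂ Z : Subgroup Q} {s e : Bool} {g : Q}
    (h : AW K₁ K₂ Z s e g) : AW K₂ K₁ Z (!s) (!e) g := by
  induction h with
  | one₁ x hx hxZ => exact AW.one₂ x hx hxZ
  | one₂ x hx hxZ => exact AW.one₁ x hx hxZ
  | cons₁ x g e hx hxZ _ ih => exact AW.cons₂ x g _ hx hxZ ih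
  | cons₂ x g e hx hxZ _ ih => exact AW.cons₁ x g _ hx hxZ ih

/-- the image of a set `V` which all elements of `K₁` move into `closure I₂` -/
private theorem am_reach {P X Q : Type} [Group P] [TopologicalSpace X] [MulAction P X]
    [Group Q] {ρ : Q →* P} {K₁ K₂ Z : Subgroup Q} {I₁ I₂ : Set X}
    (h1 : ∀ x ∈ K₁, x ∉ Z → ρ x • closure I₁ ⊆ closure I₂)
    (h2 : ∀ x ∈ K₂, x ∉ Z → ρ x • closure I₂ ⊆ closure I₁)
    {V : Set X} (hV : ∀ x ∈ K₁, ρ x • V ⊆ closure I₂) {s e : Bool} {g : Q}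
    (h : AW K₁ K₂ Z s e g) :
    (s = false ∧ g ∈ K₁) ∨
    (s = false ∧ ∃ x ∈ K₁, x ∉ Z ∧ ρ g • V ⊆ ρ x • closure I₁) ∨
    (s = true ∧ ∃ x ∈ K₂, x ∉ Z ∧ ρ g • V ⊆ ρ x • closure I₂) := by
  have key : ∀ (x g : Q) (S : Set X), ρ g • V ⊆ S → ρ (x * g) • V ⊆ ρ x • S := by
    intro x g S hgS
    rw [map_mul, mul_smul]
    exact Set.smul_set_mono hgS
  induction h with
  | one₁ x hx hxZ => exact Or.inl ⟨rfl, hx⟩
  | one₂ x hx hxZ =>
    refine Or.inr (Or.inr ⟨rfl, x, hx, hxZ, ?_⟩)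
    have := hV 1 (one_mem _)
    rw [map_one, one_smul] at this
    exact Set.smul_set_mono this
  | cons₁ x g e hx hxZ _ ih =>
    rcases ih with ⟨hf, _⟩ | ⟨hf, _⟩ | ⟨_, y, hy, hyZ, hg⟩
    · exact absurd hf (by decide)
    · exact absurd hf (by decide)
    · exact Or.inr (Or.inl ⟨rfl, x, hx, hxZ, key _ _ _ (hg.trans (h2 y hy hyZ))⟩)
  | cons₂ x g e hx hxZ _ ih =>
    rcases ih with ⟨_, hg⟩ | ⟨_, y, hy, hyZ, hg⟩ | ⟨hf, _⟩
    · exact Or.inr (Or.inr ⟨rfl, x, hx, hxZ, key _ _ _ (hV g hg)⟩)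
    · exact Or.inr (Or.inr ⟨rfl, x, hx, hxZ, key _ _ _ (hg.trans (h1 y hy hyZ))⟩)
    · exact absurd hf (by decide)

/-- the image of `closure I₂` (last letter in `K₂`) -/
private theorem am_word {P X Q : Type} [Group P] [TopologicalSpace X] [MulAction P X]
    [Group Q] {ρ : Q →* P} {K₁ K₂ Z : Subgroup Q} {I₁ I₂ : Set X}
    (h1 : ∀ x ∈ K₁, x ∉ Z → ρ x • closure I₁ ⊆ closure I₂)
    (h2 : ∀ x ∈ K₂, x ∉ Z → ρ x • closure I₂ ⊆ closure I₁)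
    {s e : Bool} {g : Q} (h : AW K₁ K₂ Z s e g) (he : e = true) :
    (s = false ∧ ∃ x ∈ K₁, x ∉ Z ∧ ρ g • closure I₂ ⊆ ρ x • closure I₁) ∨
    (s = true ∧ ∃ x ∈ K₂, x ∉ Z ∧ ρ g • closure I₂ ⊆ ρ x • closure I₂) := by
  have key : ∀ (x g : Q) (S : Set X), ρ g • closure I₂ ⊆ S →
      ρ (x * g) • closure I₂ ⊆ ρ x • S := by
    intro x g S hgS
    rw [map_mul, mul_smul]
    exact Set.smul_set_mono hgS
  induction h with
  | one₁ x hx hxZ => exact absurd he (by decide)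
  | one₂ x hx hxZ => exact Or.inr ⟨rfl, x, hx, hxZ, le_rfl⟩
  | cons₁ x g e hx hxZ _ ih =>
    rcases ih he with ⟨hf, _⟩ | ⟨_, y, hy, hyZ, hg⟩
    · exact absurd hf (by decide)
    · exact Or.inl ⟨rfl, x, hx, hxZ, key _ _ _ (hg.trans (h2 y hy hyZ))⟩
  | cons₂ x g e hx hxZ _ ih =>
    rcases ih he with ⟨_, y, hy, hyZ, hg⟩ | ⟨hf, _⟩
    · exact Or.inr ⟨rfl, x, hx, hxZ, key _ _ _ (hg.trans (h1 y hy hyZ))⟩
    · exact absurd hf (by decide)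

/-- an alternating word whose last letter is in `K₂` does not fix the arcs -/
private theorem am_nofix {P X Q κ₁ κ₂ : Type} [Group P] [TopologicalSpace X] [MulAction P X]
    [Group Q] {N : Set P} {ρ : Q →* P} {K₁ K₂ Z : Subgroup Q} {I₁ I₂ : Set X}
    {U₁ : κ₁ → Set X} {β₁ : κ₁ → Q} {U₂ : κ₂ → Set X} {β₂ : κ₂ → Q}
    (H1 : AmHf N ρ K₁ Z I₁ I₂ U₁ β₁) (H2 : AmHf N ρ K₂ Z I₂ I₁ U₂ β₂)
    (hI₁ : closure I₁ = I₂ᶜ) (hI₂ : closure I₂ = I₁ᶜ) (hne : I₂.Nonempty)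
    {s : Bool} {g : Q} (h : AW K₁ K₂ Z s true g)
    (hf1 : ρ g • I₁ = I₁) (hf2 : ρ g • I₂ = I₂) : False := by
  rcases am_word H1.sub H2.sub h rfl with ⟨_, x, hx, hxZ, hg⟩ | ⟨_, x, hx, hxZ, hg⟩
  · obtain ⟨w, hw1, hw2⟩ := H1.four x hx hxZ
    apply hw2
    apply hg
    rw [hI₂, Set.smul_set_compl, hf1]
    exact hw1
  · obtain ⟨w, hw⟩ := hne
    have h1 : w ∈ ρ g • closure I₂ := by
      rw [← hf2] at hw
      exact Set.smul_set_mono subset_closure hw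
    have h2 := H2.sub x hx hxZ (hg h1)
    rw [hI₁] at h2
    exact h2 hw

/-- disjointness for a boundary of the first system -/
private theorem am_dis {P X Q κ₁ κ₂ : Type} [Group P] [TopologicalSpace X] [MulAction P X]
    [Group Q] {N : Set P} {ρ : Q →* P} {K₁ K₂ Z : Subgroup Q} {I₁ I₂ : Set X}
    {U₁ : κ₁ → Set X} {β₁ : κ₁ → Q} {U₂ : κ₂ → Set X} {β₂ : κ₂ → Q}
    (H1 : AmHf N ρ K₁ Z I₁ I₂ U₁ β₁) (H2 : AmHf N ρ K₂ Z I₂ I₁ U₂ β₂) (hZ : Z ≤ K₁)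
    {g : Q} (h : g ∈ Z ∨ ∃ s e, AW K₁ K₂ Z s e g) (i : κ₁) :
    (∀ i' : κ₁, ((ρ g • U₁ i) ∩ U₁ i').Nonempty → i = i' ∧ g ∈ Subgroup.zpowers (β₁ i)) ∧
    (∀ i' : κ₂, ¬ ((ρ g • U₁ i) ∩ U₂ i').Nonempty) := by
  have hK : g ∈ K₁ →
      (∀ i' : κ₁, ((ρ g • U₁ i) ∩ U₁ i').Nonempty → i = i' ∧ g ∈ Subgroup.zpowers (β₁ i)) ∧
      (∀ i' : κ₂, ¬ ((ρ g • U₁ i) ∩ U₂ i').Nonempty) := by
    intro hg
    refine ⟨fun i' h => H1.dis g hg i i' h, fun i' h => ?_⟩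
    obtain ⟨w, hw1, hw2⟩ := h
    exact Set.disjoint_left.mp (H2.arc0 i') (H1.arc i g hg hw1) hw2
  rcases h with hg | ⟨s, e, hAW⟩
  · exact hK (hZ hg)
  · rcases am_reach H1.sub H2.sub (H1.arc i) hAW with ⟨_, hg⟩ | ⟨_, x, hx, hxZ, hg⟩ |
      ⟨_, x, hx, hxZ, hg⟩
    · exact hK hg
    · refine ⟨fun i' h => ?_, fun i' h => ?_⟩
      · obtain ⟨w, hw1, hw2⟩ := h
        exact absurd hw2 (Set.disjoint_left.mp (H1.arc' i' x hx hxZ) (hg hw1))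
      · obtain ⟨w, hw1, hw2⟩ := h
        exact absurd hw2 (Set.disjoint_left.mp (H2.arc0 i') (H1.sub x hx hxZ (hg hw1)))
    · refine ⟨fun i' h => ?_, fun i' h => ?_⟩
      · obtain ⟨w, hw1, hw2⟩ := h
        exact absurd hw2 (Set.disjoint_left.mp (H1.arc0 i') (H2.sub x hx hxZ (hg hw1)))
      · obtain ⟨w, hw1, hw2⟩ := h
        exact absurd hw2 (Set.disjoint_left.mp (H2.arc' i' x hx hxZ) (hg hw1))

theorem tAmal : S_AW → S_Amal := by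
  intro hAW P X Q₁ Q₂ Q κ₁ κ₂ _ _ _ _ _ _ A hA hN ρ₁ b₁ ρ₂ b₂ ρ j₁ j₂ hS1 hS2 hρ1 hρ2 hb htop
  have hl : ρ₂ (b₂ none) = (ρ₁ (b₁ none))⁻¹ := by
    rw [← hρ2, hb, map_inv, hρ1]
  have hl' : ρ₁ (b₁ none) = (ρ₂ (b₂ none))⁻¹ := by rw [hl, inv_inv]
  have hI2 : A.I (ρ₂ (b₂ none)) = (closure (A.I (ρ₁ (b₁ none))))ᶜ := by
    rw [hl]
    exact hA.Iinv _ (hS1.hy none)
  have hI1 : A.I (ρ₁ (b₁ none)) = (closure (A.I (ρ₂ (b₂ none))))ᶜ := by
    rw [hl']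
    exact hA.Iinv _ (hS2.hy none)
  have hc2 : closure (A.I (ρ₂ (b₂ none))) = (A.I (ρ₁ (b₁ none)))ᶜ := by
    rw [hI1, compl_compl]
  have hc1 : closure (A.I (ρ₁ (b₁ none))) = (A.I (ρ₂ (b₂ none)))ᶜ := by
    rw [hI2, compl_compl]
  have hZe : Subgroup.zpowers (j₂ (b₂ none)) = Subgroup.zpowers (j₁ (b₁ none)) := by
    rw [hb, Subgroup.zpowers_inv]
  have H1 := am_half hA hN hS1 hρ1 (A.I (ρ₂ (b₂ none))) hc2
  have H2 := am_half hA hN hS2 hρ2 (A.I (ρ₁ (b₁ none))) hc1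
  rw [hZe] at H2
  have hZ1 : Subgroup.zpowers (j₁ (b₁ none)) ≤ j₁.range := by
    rw [Subgroup.zpowers_le]
    exact ⟨_, rfl⟩
  have hZ2 : Subgroup.zpowers (j₁ (b₁ none)) ≤ j₂.range := by
    rw [← hZe, Subgroup.zpowers_le]
    exact ⟨_, rfl⟩
  have hw := hAW Q j₁.range j₂.range (Subgroup.zpowers (j₁ (b₁ none))) htop hZ1 hZ2
  have hw' : ∀ g : Q, g ∈ Subgroup.zpowers (j₁ (b₁ none)) ∨
      ∃ s e, AW j₂.range j₁.range (Subgroup.zpowers (j₁ (b₁ none))) s e g := by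
    intro g
    rcases hw g with h | ⟨s, e, h⟩
    · exact Or.inl h
    · exact Or.inr ⟨!s, !e, am_swap h⟩
  constructor
  · rintro (i | i)
    · change ρ (j₁ (b₁ (some i))) ∈ A.hyp
      rw [hρ1]
      exact hS1.hy _
    · change ρ (j₂ (b₂ (some i))) ∈ A.hyp
      rw [hρ2]
      exact hS2.hy _
  · intro g hg
    have hf1 : ρ g • A.I (ρ₁ (b₁ none)) = A.I (ρ₁ (b₁ none)) := hA.fix _ hg _ (hS1.hy none)
    have hf2 : ρ g • A.I (ρ₂ (b₂ none)) = A.I (ρ₂ (b₂ none)) := hA.fix _ hg _ (hS2.hy none)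
    rcases hw g with h | ⟨s, e, h⟩
    · exact H1.inj g (hZ1 h) hg
    · cases e with
      | true =>
        exact (am_nofix H1 H2 hc1 hc2 (hA.ne _ (hS2.hy none)) h hf1 hf2).elim
      | false =>
        exact (am_nofix H2 H1 hc2 hc1 (hA.ne _ (hS1.hy none)) (am_swap h) hf2 hf1).elim
  · rintro g (i | i) (i' | i') h
    · change ((ρ g • A.I (ρ (j₁ (b₁ (some i))))) ∩ A.I (ρ (j₁ (b₁ (some i'))))).Nonempty at h
      rw [hρ1, hρ1] at h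
      obtain ⟨h1, h2⟩ := (am_dis H1 H2 hZ1 (hw g) i).1 i' h
      exact ⟨congrArg Sum.inl h1, h2⟩
    · change ((ρ g • A.I (ρ (j₁ (b₁ (some i))))) ∩ A.I (ρ (j₂ (b₂ (some i'))))).Nonempty at h
      rw [hρ1, hρ2] at h
      exact ((am_dis H1 H2 hZ1 (hw g) i).2 i' h).elim
    · change ((ρ g • A.I (ρ (j₂ (b₂ (some i))))) ∩ A.I (ρ (j₁ (b₁ (some i'))))).Nonempty at h
      rw [hρ1, hρ2] at h
      exact ((am_dis H2 H1 hZ2 (hw' g) i).2 i' h).elim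
    · change ((ρ g • A.I (ρ (j₂ (b₂ (some i))))) ∩ A.I (ρ (j₂ (b₂ (some i'))))).Nonempty at h
      rw [hρ2, hρ2] at h
      obtain ⟨h1, h2⟩ := (am_dis H2 H1 hZ2 (hw' g) i).1 i' h
      exact ⟨congrArg Sum.inr h1, h2⟩
  · rintro (i | i)
    · exact H1.cos i
    · exact H2.cos i

end Pool.Agent.MPEF
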