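import Pool.Agent.Lib.MP_ef3f0f_gt.Stmt

set_option autoImplicit false

/-!
# MP_ef3f0f_gt, Part IV (pants and gluing): definitions

`P` is a group acting on a topological space `X` (in the application `P = SL₂(ℝ)` acts on `ℝ²` and
the arcs are open double cones), `Γ` is a group with a homomorphism `p : Γ →* P`.
-/

namespace Pool.Agent.MPEF

open scoped Pointwise commutatorElement

/-- Arc data: a set `hyp` of hyperbolic elements of `P`, an arc `I l` for every `l`, and a set `N`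
of elements of `P` acting trivially on the arcs. -/
structure Arc (P X : Type) where
  hyp : Set P
  I : P → Set X
  N : Set P

/-- The axioms of arc data. -/
structure Arc.Ok {P X : Type} [Group P] [TopologicalSpace X] [MulAction P X] (A : Arc P X) :
    Prop where
  cont : ∀ g : P, Continuous fun x : X => g • x
  conj : ∀ t l : P, l ∈ A.hyp → t * l * t⁻¹ ∈ A.hyp
  inv : ∀ l ∈ A.hyp, l⁻¹ ∈ A.hyp
  Iconj : ∀ t l : P, l ∈ A.hyp → A.I (t * l * t⁻¹) = t • A.I l
  op : ∀ l ∈ A.hyp, IsOpen (A.I l)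
  ne : ∀ l ∈ A.hyp, (A.I l).Nonempty
  Iinv : ∀ l ∈ A.hyp, A.I l⁻¹ = (closure (A.I l))ᶜ
  fix : ∀ n ∈ A.N, ∀ l ∈ A.hyp, n • A.I l = A.I l
  Nconj : ∀ t n : P, n ∈ A.N → t * n * t⁻¹ ∈ A.N

/-- A system: a homomorphism `ρ : Q →* P` and boundary elements `b i ∈ Q` with hyperbolic images,
`ρ` injective modulo `N`, the arcs `ρ g • I (ρ (b i))` pairwise disjoint (as far as they are not
equal for the trivial reason), and at least three cosets of every boundary subgroup. -/
structure Sys {P X Q κ : Type} [Group P] [MulAction P X] [Group Q] (A : Arc P X)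
    (ρ : Q →* P) (b : κ → Q) : Prop where
  hy : ∀ i, ρ (b i) ∈ A.hyp
  inj : ∀ g, ρ g ∈ A.N → g = 1
  dis : ∀ g i j, ((ρ g • A.I (ρ (b i))) ∩ A.I (ρ (b j))).Nonempty →
    i = j ∧ g ∈ Subgroup.zpowers (b i)
  cos : ∀ i, ∃ x y, x ∉ Subgroup.zpowers (b i) ∧ y ∉ Subgroup.zpowers (b i) ∧
    x⁻¹ * y ∉ Subgroup.zpowers (b i)

/-- Generators of the fundamental group of the surface of genus `h` with `k` boundary components. -/
abbrev SGen (h k : ℕ) : Type := (Fin h × Bool) ⊕ Fin k

/-- The relator `[X₀,T₀] ⋯ [X_{h-1},T_{h-1}] s₀ ⋯ s_{k-1}`. -/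
def sfRel (h k : ℕ) : FreeGroup (SGen h k) :=
  (List.ofFn fun i : Fin h => ⁅FreeGroup.of (Sum.inl (i, false) : SGen h k),
    FreeGroup.of (Sum.inl (i, true) : SGen h k)⁆).prod *
  (List.ofFn fun j : Fin k => FreeGroup.of (Sum.inr j : SGen h k)).prod

/-- The fundamental group of the surface of genus `h` with `k` boundary components. -/
abbrev SF (h k : ℕ) : Type := PresentedGroup {sfRel h k}

/-- The handle generators (`false` : `X_i`, `true` : `T_i`). -/
def sfX {h k : ℕ} (i : Fin h × Bool) : SF h k := PresentedGroup.of (Sum.inl i)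

/-- The boundary generators. -/
def sfS {h k : ℕ} (j : Fin k) : SF h k := PresentedGroup.of (Sum.inr j)

/-- The value of the relator on elements of a group. -/
def sfVal {h k : ℕ} {Γ : Type} [Group Γ] (x : Fin h × Bool → Γ) (s : Fin k → Γ) : Γ :=
  (List.ofFn fun i : Fin h => ⁅x (i, false), x (i, true)⁆).prod * (List.ofFn s).prod

/-- State: there is a representation `ρ` of `SF h k` in `Γ` such that `p ∘ ρ` with the boundary
generators is a system, and the boundary generator `s_j` is mapped to a conjugate of `c j`. -/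
def St {P X Γ : Type} [Group P] [MulAction P X] [Group Γ] (A : Arc P X) (p : Γ →* P) (h k : ℕ)
    (c : Fin k → Γ) : Prop :=
  ∃ ρ : SF h k →* Γ, Sys A (p.comp ρ) (fun j : Fin k => (sfS j : SF h k)) ∧
    ∀ j, IsConj (ρ (sfS j)) (c j)

/-- Alternating words: `AW K₁ K₂ Z s e g` says that `g` is a product of `n ≥ 1` letters, alternately
from `K₁ ∖ Z` and `K₂ ∖ Z`, the first letter from `K₁` iff `s = false`, the last one from `K₁` iff
`e = false`. -/
inductive AW {Q : Type} [Group Q] (K₁ K₂ Z : Subgroup Q) : Bool → Bool → Q → Prop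
  | one₁ (x : Q) : x ∈ K₁ → x ∉ Z → AW K₁ K₂ Z false false x
  | one₂ (x : Q) : x ∈ K₂ → x ∉ Z → AW K₁ K₂ Z true true x
  | cons₁ (x g : Q) (e : Bool) : x ∈ K₁ → x ∉ Z → AW K₁ K₂ Z true e g →
      AW K₁ K₂ Z false e (x * g)
  | cons₂ (x g : Q) (e : Bool) : x ∈ K₂ → x ∉ Z → AW K₁ K₂ Z false e g →
      AW K₁ K₂ Z true e (x * g)

/-- `t` or `t⁻¹`. -/
def tpow {Q : Type} [Group Q] (t : Q) (ε : Bool) : Q := if ε then t else t⁻¹

/-- Reduced HNN words without end letters: `HW K Z Z' t ε e g` says that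
`g = t^{ε₁} x₁ t^{ε₂} x₂ ⋯ t^{ε_n}`, `n ≥ 1`, `x_i ∈ K`, `ε₁ = ε`, `ε_n = e` (`true` is `+1`),
without a subword `t x t⁻¹` with `x ∈ Z` or `t⁻¹ x t` with `x ∈ Z'`. -/
inductive HW {Q : Type} [Group Q] (K Z Z' : Subgroup Q) (t : Q) : Bool → Bool → Q → Prop
  | one (ε : Bool) : HW K Z Z' t ε ε (tpow t ε)
  | cons (ε ε' e : Bool) (x g : Q) : x ∈ K → HW K Z Z' t ε' e g →
      (ε = true → ε' = false → x ∉ Z) → (ε = false → ε' = true → x ∉ Z') →
      HW K Z Z' t ε e (tpow t ε * x * g)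

end Pool.Agent.MPEF
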