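import Pool.Agent.Lib.MP_ef3f0f_gt.G.Spec

set_option autoImplicit false

namespace Pool.Agent.MPEF

open scoped Pointwise commutatorElement

/-- the invariant of the gluing induction -/
private structure GlueInv {P X Γ : Type} [Group P] [TopologicalSpace X] [MulAction P X] [Group Γ]
    (A : Arc P X) (p : Γ →* P) {n : ℕ} (d : Fin n → Fin 3 → Γ)
    (σ : Fin n × Fin 3 → Fin n × Fin 3) (h k : ℕ) (U : Finset (Fin n))
    (c : Fin k → Fin n × Fin 3) : Prop where
  ne : U.Nonempty
  inj : Function.Injective c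
  mem : ∀ j, (c j).1 ∈ U
  st : St A p h k (fun j => d (c j).1 (c j).2)
  glued : ∀ x : Fin n × Fin 3, x.1 ∈ U → x ∉ Set.range c → (σ x).1 ∈ U ∧ σ x ∉ Set.range c
  eul : 2 * h + k = U.card + 2

private theorem glue_range_cons {α : Type} {k : ℕ} (a b : α) (c : Fin k → α) (x : α) :
    x ∈ Set.range (Fin.cons a (Fin.cons b c : Fin (k + 1) → α) : Fin (k + 2) → α) ↔
      x = a ∨ x = b ∨ x ∈ Set.range c := by
  rw [Fin.range_cons, Fin.range_cons]
  simp

private theorem glue_step_amal {P X Γ : Type} [Group P] [TopologicalSpace X] [MulAction P X]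
    [Group Γ] (A : Arc P X) (hA : A.Ok) (h1 : (1 : P) ∈ A.N) (p : Γ →* P) {n : ℕ}
    (d : Fin n → Fin 3 → Γ) (hd : ∀ i, St A p 0 3 (d i)) (σ : Fin n × Fin 3 → Fin n × Fin 3)
    (hσ : ∀ x, σ (σ x) = x) (hc : ∀ x, IsConj (d x.1 x.2) (d (σ x).1 (σ x).2)⁻¹)
    (hP : S_StPerm) (hAm : S_StAmal) (h k : ℕ) (U : Finset (Fin n))
    (c : Fin (k + 1) → Fin n × Fin 3) (I : GlueInv A p d σ h (k + 1) U c)
    (hy : (σ (c 0)).1 ∉ U) :
    ∃ (U' : Finset (Fin n)) (c' : Fin (k + 2) → Fin n × Fin 3), GlueInv A p d σ h (k + 2) U' c' ∧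
      U'.card = U.card + 1 := by
  classical
  set i := (σ (c 0)).1 with hi
  set π : Equiv.Perm (Fin 3) := Equiv.swap 0 (σ (c 0)).2 with hπ
  have hπ0 : π 0 = (σ (c 0)).2 := Equiv.swap_apply_left _ _
  have hst := hP P X Γ A hA p 0 3 (d i) (hd i) π
  have hconj : IsConj (d (c 0).1 (c 0).2) ((d i ∘ π) 0)⁻¹ := by
    have := hc (c 0)
    simp only [Function.comp_apply, hπ0]
    exact this
  have hnew := hAm P X Γ A hA h1 p h k (fun j => d (c j).1 (c j).2) (d i ∘ π) I.st hst hconj
  set c' : Fin (k + 2) → Fin n × Fin 3 :=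
    Fin.cons (i, π 1) (Fin.cons (i, π 2) (fun j : Fin k => c j.succ) : Fin (k + 1) → Fin n × Fin 3)
    with hc'
  have hrange : ∀ x, x ∈ Set.range c' ↔ x = (i, π 1) ∨ x = (i, π 2) ∨
      x ∈ Set.range (fun j : Fin k => c j.succ) := by
    intro x
    rw [hc']
    exact glue_range_cons _ _ _ _
  have hsub : ∀ x, x ∈ Set.range (fun j : Fin k => c j.succ) → x.1 ∈ U := by
    rintro x ⟨j, rfl⟩
    exact I.mem _
  have hin : ∀ t : Fin 3, (i, t) ∉ Set.range (fun j : Fin k => c j.succ) := by
    intro t ht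
    exact hy (hsub (i, t) ht)
  have hc0 : c 0 ∉ Set.range (fun j : Fin k => c j.succ) := by
    rintro ⟨j, hj⟩
    have := I.inj hj
    exact absurd this (Fin.succ_ne_zero j)
  have h12 : π 1 ≠ π 2 := fun h => absurd (π.injective h) (by decide)
  have h01 : π 0 ≠ π 1 := fun h => absurd (π.injective h) (by decide)
  have h02 : π 0 ≠ π 2 := fun h => absurd (π.injective h) (by decide)
  have hσy : σ (c 0) = (i, π 0) := by
    rw [hπ0, hi]
  refine ⟨insert i U, c', ⟨⟨i, Finset.mem_insert_self i U⟩, ?_, ?_, ?_, ?_, ?_⟩,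
    Finset.card_insert_of_notMem hy⟩
  · -- injective
    rw [hc', Fin.cons_injective_iff]
    refine ⟨?_, ?_⟩
    · rw [Fin.range_cons]
      rintro (h | h)
      · have : π 1 = π 2 := congrArg Prod.snd h
        exact h12 this
      · exact hin _ h
    · rw [Fin.cons_injective_iff]
      refine ⟨hin _, ?_⟩
      intro j j' hjj
      exact Fin.succ_injective _ (I.inj hjj)
  · intro j
    have hj : c' j ∈ Set.range c' := ⟨j, rfl⟩
    rw [hrange] at hj
    rcases hj with h | h | h
    · rw [h]; exact Finset.mem_insert_self i U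
    · rw [h]; exact Finset.mem_insert_self i U
    · exact Finset.mem_insert_of_mem (hsub _ h)
  · have hfun : (fun j => d (c' j).1 (c' j).2) =
        (Fin.cons ((d i ∘ π) 1) (Fin.cons ((d i ∘ π) 2)
          (fun j : Fin k => (fun j => d (c j).1 (c j).2) j.succ) : Fin (k + 1) → Γ) :
          Fin (k + 2) → Γ) := by
      funext j
      rw [hc']
      refine Fin.cases ?_ (fun j => ?_) j
      · simp
      · refine Fin.cases ?_ (fun j => ?_) j
        · simp
        · simp
    rw [hfun]
    exact hnew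
  · intro x hx hxr
    rw [hrange, not_or, not_or] at hxr
    rw [hrange, not_or, not_or]
    obtain ⟨hx1, hx2, hx3⟩ := hxr
    rw [Finset.mem_insert] at hx
    by_cases hxi : x.1 = i
    · -- x = σ (c 0)
      have hx0 : x = (i, π 0) := by
        have hsurj : ∃ t : Fin 3, π t = x.2 := π.surjective x.2
        obtain ⟨t, ht⟩ := hsurj
        have hxt : x = (i, π t) := by
          rw [ht]
          exact Prod.ext hxi rfl
        have ht' : t = 0 ∨ t = 1 ∨ t = 2 := by
          fin_cases t <;> simp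
        rcases ht' with rfl | rfl | rfl
        · exact hxt
        · exact absurd hxt hx1
        · exact absurd hxt hx2
      have hσx : σ x = c 0 := by
        rw [hx0, ← hσy, hσ]
      rw [hσx]
      refine ⟨Finset.mem_insert_of_mem (I.mem 0), ?_, ?_, hc0⟩
      · intro h
        apply hy
        have := I.mem 0
        rw [h] at this
        exact this
      · intro h
        apply hy
        have := I.mem 0
        rw [h] at this
        exact this
    · have hxU : x.1 ∈ U := by
        rcases hx with h | h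
        · exact absurd h hxi
        · exact h
      by_cases hxc : x = c 0
      · rw [hxc, hσy]
        refine ⟨Finset.mem_insert_self i U, ?_, ?_, hin _⟩
        · intro h
          exact h01 (congrArg Prod.snd h)
        · intro h
          exact h02 (congrArg Prod.snd h)
      · have hxr : x ∉ Set.range c := by
          rintro ⟨j, rfl⟩
          rcases Fin.eq_zero_or_eq_succ j with rfl | ⟨j', rfl⟩
          · exact hxc rfl
          · exact hx3 ⟨j', rfl⟩
        obtain ⟨g1, g2⟩ := I.glued x hxU hxr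
        refine ⟨Finset.mem_insert_of_mem g1, ?_, ?_, ?_⟩
        · intro h
          rw [h] at g1
          exact hy g1
        · intro h
          rw [h] at g1
          exact hy g1
        · rintro ⟨j, hj⟩
          exact g2 ⟨j.succ, hj⟩
  · rw [Finset.card_insert_of_notMem hy]
    have := I.eul
    omega

private theorem glue_step_hnn {P X Γ : Type} [Group P] [TopologicalSpace X] [MulAction P X]
    [Group Γ] (A : Arc P X) (hA : A.Ok) (h1 : (1 : P) ∈ A.N) (p : Γ →* P) {n : ℕ}
    (d : Fin n → Fin 3 → Γ) (σ : Fin n × Fin 3 → Fin n × Fin 3)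
    (hσ : ∀ x, σ (σ x) = x) (hne : ∀ x, σ x ≠ x)
    (hc : ∀ x, IsConj (d x.1 x.2) (d (σ x).1 (σ x).2)⁻¹)
    (hP : S_StPerm) (hH : S_StHNN) (h k : ℕ) (U : Finset (Fin n))
    (c : Fin (k + 1) → Fin n × Fin 3) (I : GlueInv A p d σ h (k + 1) U c)
    (hy : (σ (c 0)).1 ∈ U) :
    ∃ (k' : ℕ) (c' : Fin k' → Fin n × Fin 3), GlueInv A p d σ (h + 1) k' U c' ∧
      k = k' + 1 := by
  have hyr : σ (c 0) ∈ Set.range c := by
    by_contra hcon
    obtain ⟨_, g2⟩ := I.glued (σ (c 0)) hy hcon
    rw [hσ] at g2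
    exact g2 ⟨0, rfl⟩
  obtain ⟨j0, hj0⟩ := hyr
  have hj00 : j0 ≠ 0 := by
    rintro rfl
    exact hne (c 0) hj0.symm
  obtain ⟨k', rfl⟩ : ∃ k', k = k' + 1 := by
    rcases k with _ | k'
    · exfalso
      apply hj00
      apply Fin.ext
      have := j0.2
      simp only [Fin.val_zero]
      omega
    · exact ⟨k', rfl⟩
  set π : Equiv.Perm (Fin (k' + 1 + 1)) := Equiv.swap 1 j0 with hπ
  have h10 : (0 : Fin (k' + 1 + 1)) ≠ 1 := by
    intro h
    exact absurd (congrArg Fin.val h) (by simp)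
  have hπ0 : π 0 = 0 := Equiv.swap_apply_of_ne_of_ne h10 (Ne.symm hj00)
  have hπ1 : π 1 = j0 := Equiv.swap_apply_left _ _
  have hst := hP P X Γ A hA p h (k' + 1 + 1) (fun j => d (c j).1 (c j).2) I.st π
  have hconj : IsConj (((fun j => d (c j).1 (c j).2) ∘ π) 0)
      (((fun j => d (c j).1 (c j).2) ∘ π) 1)⁻¹ := by
    simp only [Function.comp_apply, hπ0, hπ1, hj0]
    exact hc (c 0)
  have hnew := hH P X Γ A hA h1 p h k' _ hst hconj
  have hinj : Function.Injective (fun j => c (π j)) := I.inj.comp π.injective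
  have hx0 : c 0 ∉ Set.range (fun j : Fin k' => c (π j.succ.succ)) := by
    rintro ⟨j, hj⟩
    have hj' : c (π j.succ.succ) = c (π 0) := by rw [hπ0]; exact hj
    have := hinj hj'
    exact absurd this (Fin.succ_ne_zero _)
  have hy0 : σ (c 0) ∉ Set.range (fun j : Fin k' => c (π j.succ.succ)) := by
    rintro ⟨j, hj⟩
    have hj' : c (π j.succ.succ) = c (π 1) := by rw [hπ1, hj0]; exact hj
    have := hinj hj'
    have h2 : (j.succ.succ : Fin (k' + 1 + 1)).val = (1 : Fin (k' + 1 + 1)).val := congrArg Fin.val this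
    simp at h2
  refine ⟨k', fun j => c (π j.succ.succ), ⟨I.ne, ?_, ?_, hnew, ?_, ?_⟩, rfl⟩
  · intro j j' hjj
    exact Fin.succ_injective _ (Fin.succ_injective _ (hinj hjj))
  · intro j
    exact I.mem _
  · intro x hx hxr
    by_cases hxc : x ∈ Set.range c
    · obtain ⟨j1, rfl⟩ := hxc
      obtain ⟨j2, rfl⟩ := π.surjective j1
      rcases Fin.eq_zero_or_eq_succ j2 with rfl | ⟨j3, rfl⟩
      · rw [hπ0]
        exact ⟨hy, hy0⟩
      · rcases Fin.eq_zero_or_eq_succ j3 with rfl | ⟨j4, rfl⟩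
        · have hs : (Fin.succ 0 : Fin (k' + 1 + 1)) = 1 := rfl
          rw [hs, hπ1, hj0, hσ]
          exact ⟨I.mem 0, hx0⟩
        · exact absurd ⟨j4, rfl⟩ hxr
    · obtain ⟨g1, g2⟩ := I.glued x hx hxc
      refine ⟨g1, ?_⟩
      rintro ⟨j, hj⟩
      exact g2 ⟨_, hj⟩
  · have := I.eul
    omega

theorem tGlue : S_StPerm → S_StAmal → S_StHNN → S_Glue := by
  intro hP hAm hH P X Γ _ _ _ _ A hA h1 p n hn d hd σ hσ hne hc
  have main : ∀ (m h k : ℕ) (U : Finset (Fin n)) (c : Fin k → Fin n × Fin 3),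
      GlueInv A p d σ h k U c → k + 3 * (n - U.card) ≤ m →
      ∃ h : ℕ, 2 ≤ h ∧ ∃ c : Fin 0 → Γ, St A p h 0 c := by
    intro m
    induction m with
    | zero =>
      intro h k U c I hm
      obtain rfl : k = 0 := by omega
      refine ⟨h, ?_, _, I.st⟩
      have h1 := I.eul
      have h2 := I.ne.card_pos
      omega
    | succ m ih =>
      intro h k U c I hm
      rcases k with _ | k
      · refine ⟨h, ?_, _, I.st⟩
        have h1 := I.eul
        have h2 := I.ne.card_pos
        omega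
      · by_cases hy : (σ (c 0)).1 ∈ U
        · obtain ⟨k', c', I', hk'⟩ :=
            glue_step_hnn A hA h1 p d σ hσ hne hc hP hH h k U c I hy
          exact ih (h + 1) k' U c' I' (by omega)
        · obtain ⟨U', c', I', hU'⟩ :=
            glue_step_amal A hA h1 p d hd σ hσ hc hP hAm h k U c I hy
          have hle : U'.card ≤ n := by
            have := Finset.card_le_univ U'
            rwa [Fintype.card_fin] at this
          exact ih h (k + 2) U' c' I' (by omega)
  -- start
  set i0 : Fin n := ⟨0, hn⟩ with hi0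
  refine main (3 + 3 * (n - 1)) 0 3 {i0} (fun j => (i0, j)) ⟨⟨i0, by simp⟩, ?_, ?_, hd i0, ?_, ?_⟩ ?_
  · intro j j' hjj
    exact congrArg Prod.snd hjj
  · intro j
    simp
  · intro x hx hxr
    exfalso
    apply hxr
    refine ⟨x.2, ?_⟩
    rw [Finset.mem_singleton] at hx
    exact Prod.ext hx.symm rfl
  · simp
  · simp

end Pool.Agent.MPEF
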