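import Pool.Agent.Lib.MP_ef3f0f_gt.G.Spec

set_option autoImplicit false

/-! # MP_ef3f0f_gt, Part IV: the HNN combination lemma -/

namespace Pool.Agent.MPEF

open scoped Pointwise commutatorElement

private theorem hn_clos {P X : Type} [Group P] [TopologicalSpace X] [MulAction P X] (g : P)
    (hg : Continuous fun x : X => g • x) (S T : Set X) (hT : IsOpen T)
    (h : Disjoint (g • S) T) : Disjoint (g • closure S) T := by
  rw [Set.disjoint_left] at h ⊢
  rintro _ ⟨y, hy, rfl⟩ hyT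
  obtain ⟨z, hz1, hz2⟩ := mem_closure_iff.mp hy _ (hT.preimage hg) hyT
  exact h ⟨z, hz2, rfl⟩ hz1

private theorem hn_flip {P X : Type} [Group P] [TopologicalSpace X] [MulAction P X]
    {A : Arc P X} (hA : A.Ok) {τ l l' : P} (hl : l ∈ A.hyp) (hl' : l' ∈ A.hyp)
    (h : τ * l * τ⁻¹ = l'⁻¹) : τ • (A.I l)ᶜ = closure (A.I l') := by
  rw [Set.smul_set_compl, ← hA.Iconj τ l hl, h, hA.Iinv l' hl', compl_compl]

private theorem hn_dis {P X Q κ : Type} [Group P] [TopologicalSpace X] [MulAction P X]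
    [Group Q] {A : Arc P X} {ρ : Q →* P} {b : κ → Q} (hS : Sys A ρ b)
    (x : Q) (i i' : κ) (h : ¬ (i = i' ∧ x ∈ Subgroup.zpowers (b i))) :
    Disjoint (ρ x • A.I (ρ (b i))) (A.I (ρ (b i'))) := by
  by_contra hc
  rw [Set.not_disjoint_iff_nonempty_inter] at hc
  exact h (hS.dis x i i' hc)

private theorem hn_disc {P X Q κ : Type} [Group P] [TopologicalSpace X] [MulAction P X]
    [Group Q] {A : Arc P X} (hA : A.Ok) {ρ : Q →* P} {b : κ → Q} (hS : Sys A ρ b)
    (x : Q) (i i' : κ) (h : ¬ (i = i' ∧ x ∈ Subgroup.zpowers (b i))) :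
    Disjoint (ρ x • closure (A.I (ρ (b i)))) (A.I (ρ (b i'))) :=
  hn_clos _ (hA.cont _) _ _ (hA.op _ (hS.hy i')) (hn_dis hS x i i' h)

/-- for any two arcs there is a point outside of the first one and of the closure of the second -/
private theorem hn_four {P X Q κ : Type} [Group P] [TopologicalSpace X] [MulAction P X]
    [Group Q] {A : Arc P X} (hA : A.Ok) {ρ : Q →* P} {b : κ → Q} (hS : Sys A ρ b)
    (i i' : κ) (u v : Q) :
    ∃ w, w ∉ ρ u • A.I (ρ (b i)) ∧ w ∉ ρ v • closure (A.I (ρ (b i'))) := by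
  obtain ⟨x, y, hx, hy, hxy⟩ := hS.cos i
  obtain ⟨c, hc1, hc2⟩ : ∃ c, c ∉ Subgroup.zpowers (b i) ∧
      ¬ (i = i' ∧ v⁻¹ * u * c ∈ Subgroup.zpowers (b i)) := by
    by_cases h : v⁻¹ * u * x ∈ Subgroup.zpowers (b i)
    · refine ⟨y, hy, fun h' => hxy ?_⟩
      have h2 := mul_mem (inv_mem h) h'.2
      have h3 : (v⁻¹ * u * x)⁻¹ * (v⁻¹ * u * y) = x⁻¹ * y := by group
      rwa [h3] at h2
    · exact ⟨x, hx, fun h' => h h'.2⟩
  obtain ⟨w, hw⟩ := hA.ne _ (hS.hy i)
  refine ⟨ρ (u * c) • w, ?_, ?_⟩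
  · rintro ⟨y, hy, hyw⟩
    have hyw' : ρ u • y = ρ (u * c) • w := hyw
    rw [map_mul, mul_smul] at hyw'
    have h1 : y = ρ c • w := smul_left_cancel _ hyw'
    rw [h1] at hy
    exact (Set.disjoint_left.mp (hn_dis hS c i i fun h' => hc1 h'.2)) ⟨w, hw, rfl⟩ hy
  · rintro ⟨y, hy, hyw⟩
    have hyw' : ρ v • y = ρ (u * c) • w := hyw
    have h1 : ρ ((v⁻¹ * u * c)⁻¹) • y = w := by
      have h2 : (v⁻¹ * u * c)⁻¹ = (u * c)⁻¹ * v := by group
      rw [h2, map_mul, mul_smul, hyw', map_inv, inv_smul_smul]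
    have h2 : ¬ (i' = i ∧ (v⁻¹ * u * c)⁻¹ ∈ Subgroup.zpowers (b i')) := by
      rintro ⟨h3, h4⟩
      subst h3
      exact hc2 ⟨rfl, by simpa using inv_mem h4⟩
    exact (Set.disjoint_left.mp (hn_disc hA hS _ i' i h2)) ⟨y, hy, h1⟩ hw

/-- the index of the two glued boundaries -/
private def hnIx {κ : Type} : Bool → Option (Option κ)
  | true => none
  | false => some none

theorem tHNN : S_HW → S_HNN := by
  intro hHW P X Q₀ Q κ _ _ _ _ _ A hA hN ρ₀ b ρ j t hS hρ hb htop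
  have hinj : Function.Injective j := by
    rw [injective_iff_map_eq_one]
    intro x hx
    apply hS.inj
    rw [← hρ, hx, map_one]
    exact hN
  have hzp : ∀ x y : Q₀, j x ∈ Subgroup.zpowers (j y) ↔ x ∈ Subgroup.zpowers y := by
    intro x y
    rw [Subgroup.mem_zpowers_iff, Subgroup.mem_zpowers_iff]
    constructor
    · rintro ⟨n, hn⟩
      exact ⟨n, hinj (by rw [map_zpow, hn])⟩
    · rintro ⟨n, hn⟩
      exact ⟨n, by rw [← map_zpow, hn]⟩
  have hb1 : ρ t * ρ₀ (b none) * (ρ t)⁻¹ = (ρ₀ (b (some none)))⁻¹ := by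
    rw [← hρ, ← hρ, ← map_mul, ← map_inv, ← map_mul, hb, map_inv]
  have hb2' : t⁻¹ * j (b (some none)) * t = (j (b none))⁻¹ := by
    have h1 : j (b (some none)) = (t * j (b none) * t⁻¹)⁻¹ := by rw [hb, inv_inv]
    rw [h1]
    group
  have hb2 : ρ t⁻¹ * ρ₀ (b (some none)) * (ρ t⁻¹)⁻¹ = (ρ₀ (b none))⁻¹ := by
    rw [← hρ, ← hρ, ← map_inv, inv_inv, ← map_mul, ← map_mul, hb2', map_inv]
  set J : Bool → Set X := fun ε => A.I (ρ₀ (b (hnIx ε))) with hJ
  have hT : ∀ ε : Bool, ρ (tpow t ε) • (J ε)ᶜ = closure (J (!ε)) := by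
    intro ε
    cases ε with
    | true => exact hn_flip hA (hS.hy none) (hS.hy (some none)) hb1
    | false => exact hn_flip hA (hS.hy (some none)) (hS.hy none) hb2
  have hreach : ∀ (ε e : Bool) (w : Q),
      HW j.range (Subgroup.zpowers (j (b none))) (Subgroup.zpowers (j (b (some none)))) t ε e w →
      ρ w • (J e)ᶜ ⊆ closure (J (!ε)) := by
    intro ε e w h
    induction h with
    | one ε => exact (hT ε).le
    | cons ε ε' e x g hx _ hZ hZ' ih =>
      obtain ⟨x', rfl⟩ := hx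
      rw [map_mul, map_mul, mul_smul, mul_smul, ← hT ε]
      apply Set.smul_set_mono
      refine (Set.smul_set_mono ih).trans ?_
      rw [hρ]
      apply Disjoint.subset_compl_right
      apply hn_disc hA hS
      rintro ⟨h1, h2⟩
      cases ε with
      | true =>
        cases ε' with
        | true => simp [hnIx] at h1
        | false => exact hZ rfl rfl ((hzp _ _).mpr h2)
      | false =>
        cases ε' with
        | true => exact hZ' rfl rfl ((hzp _ _).mpr h2)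
        | false => simp [hnIx] at h1
  have hnf := hHW Q j.range (Subgroup.zpowers (j (b none))) (Subgroup.zpowers (j (b (some none)))) t
    htop (by rw [Subgroup.zpowers_le]; exact ⟨_, rfl⟩) (by rw [Subgroup.zpowers_le]; exact ⟨_, rfl⟩)
    (by
      rintro z ⟨n, rfl⟩
      refine ⟨-n, ?_⟩
      change j (b (some none)) ^ (-n) = t * j (b none) ^ n * t⁻¹
      rw [← conj_zpow, hb, inv_zpow, zpow_neg])
    (by
      rintro z ⟨n, rfl⟩
      refine ⟨-n, ?_⟩
      change j (b none) ^ (-n) = t⁻¹ * j (b (some none)) ^ n * t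
      have h1 : (t⁻¹ * j (b (some none)) * t⁻¹⁻¹) ^ n = t⁻¹ * j (b (some none)) ^ n * t⁻¹⁻¹ :=
        conj_zpow
      rw [inv_inv, hb2', inv_zpow] at h1
      rw [zpow_neg, h1])
  constructor
  · intro i
    rw [hρ]
    exact hS.hy _
  · intro g hg
    rcases hnf g with ⟨x, rfl⟩ | ⟨ε, e, _, ⟨a₀, rfl⟩, _, ⟨a₁, rfl⟩, w, hw, rfl⟩
    · rw [hρ] at hg
      rw [hS.inj x hg, map_one]
    · exfalso
      have hl : ρ₀ a₁⁻¹ * ρ₀ (b (hnIx e)) * (ρ₀ a₁⁻¹)⁻¹ ∈ A.hyp := hA.conj _ _ (hS.hy _)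
      have hfix := hA.fix _ hg _ hl
      rw [hA.Iconj _ _ (hS.hy _)] at hfix
      obtain ⟨w₀, hw1, hw2⟩ := hn_four hA hS (hnIx e) (hnIx (!ε)) a₁⁻¹ a₀
      apply hw2
      have h1 : w₀ ∈ ρ (j a₀ * w * j a₁) • (ρ₀ a₁⁻¹ • A.I (ρ₀ (b (hnIx e))))ᶜ := by
        rw [Set.smul_set_compl, hfix]
        exact hw1
      rw [map_mul, map_mul, mul_smul, mul_smul, hρ, hρ, Set.smul_set_compl (a := ρ₀ a₁),
        map_inv, smul_inv_smul] at h1
      exact Set.smul_set_mono (hreach ε e w hw) h1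
  · intro g i i' h
    rw [hρ, hρ] at h
    rcases hnf g with ⟨x, rfl⟩ | ⟨ε, e, _, ⟨a₀, rfl⟩, _, ⟨a₁, rfl⟩, w, hw, rfl⟩
    · rw [hρ] at h
      obtain ⟨h1, h2⟩ := hS.dis x _ _ h
      exact ⟨Option.some_injective _ (Option.some_injective _ h1), (hzp _ _).mpr h2⟩
    · exfalso
      obtain ⟨p, hp1, hp2⟩ := h
      rw [map_mul, map_mul, mul_smul, mul_smul, hρ, hρ] at hp1
      have h1 : ρ₀ a₁ • A.I (ρ₀ (b (some (some i)))) ⊆ (J e)ᶜ := by
        apply Disjoint.subset_compl_right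
        apply hn_dis hS
        rintro ⟨h1, _⟩
        cases e <;> simp [hnIx] at h1
      have h2 := Set.smul_set_mono (a := ρ₀ a₀)
        ((Set.smul_set_mono (a := ρ w) h1).trans (hreach ε e w hw)) hp1
      refine Set.disjoint_left.mp (hn_disc hA hS a₀ (hnIx (!ε)) (some (some i')) ?_) h2 hp2
      rintro ⟨h3, _⟩
      cases ε <;> simp [hnIx] at h3
  · intro i
    obtain ⟨x, y, hx, hy, hxy⟩ := hS.cos (some (some i))
    refine ⟨j x, j y, fun h => hx ((hzp _ _).mp h), fun h => hy ((hzp _ _).mp h), fun h => hxy ?_⟩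
    rw [← map_inv, ← map_mul] at h
    exact (hzp _ _).mp h

end Pool.Agent.MPEF
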