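import Pool.Agent.Lib.MP_ef3f0f_gt.G.Spec

set_option autoImplicit false

/-! MP_ef3f0f_gt, part IV, module HW: normal form for HNN words. -/

namespace Pool.Agent.MPEF

open scoped Pointwise commutatorElement

/-- the property of the normal form -/
private def HWN {Q : Type} [Group Q] (K Z Z' : Subgroup Q) (t g : Q) : Prop :=
  g ∈ K ∨ ∃ ε e, ∃ x₀ ∈ K, ∃ x₁ ∈ K, ∃ w, HW K Z Z' t ε e w ∧ g = x₀ * w * x₁

private theorem HW_left {Q : Type} [Group Q] (K Z Z' : Subgroup Q) (t y g : Q) (hy : y ∈ K)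
    (h : HWN K Z Z' t g) : HWN K Z Z' t (y * g) := by
  rcases h with h | ⟨ε, e, x₀, h0, x₁, h1, w, hw, rfl⟩
  · exact Or.inl (K.mul_mem hy h)
  · exact Or.inr ⟨ε, e, y * x₀, K.mul_mem hy h0, x₁, h1, w, hw, by group⟩

private theorem HW_t {Q : Type} [Group Q] (K Z Z' : Subgroup Q) (t : Q) (hZ : Z ≤ K) (hZ' : Z' ≤ K)
    (h1 : ∀ z ∈ Z, t * z * t⁻¹ ∈ Z') (h2 : ∀ z ∈ Z', t⁻¹ * z * t ∈ Z) (ε : Bool) (g : Q)
    (h : HWN K Z Z' t g) : HWN K Z Z' t (tpow t ε * g) := by
  rcases h with h | ⟨ε₁, e, x₀, hx0, x₁, hx1, w, hw, rfl⟩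
  · exact Or.inr ⟨ε, ε, 1, K.one_mem, g, h, tpow t ε, HW.one ε, by group⟩
  · by_cases hc1 : ε = true ∧ ε₁ = false ∧ x₀ ∈ Z
    · obtain ⟨rfl, rfl, hz⟩ := hc1
      have h3 : t * x₀ * t⁻¹ ∈ K := hZ' (h1 x₀ hz)
      cases hw with
      | one =>
        refine Or.inl ?_
        have h4 : tpow t true * (x₀ * tpow t false * x₁) = (t * x₀ * t⁻¹) * x₁ := by
          unfold tpow
          simp only [if_true, Bool.false_eq_true, if_false]
          group
        rw [h4]
        exact K.mul_mem h3 hx1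
      | cons _ ε' _ x g hx hg hc hc' =>
        refine Or.inr ⟨_, _, (t * x₀ * t⁻¹) * x, K.mul_mem h3 hx, x₁, hx1, g, hg, ?_⟩
        unfold tpow
        simp only [if_true, Bool.false_eq_true, if_false]
        group
    · by_cases hc2 : ε = false ∧ ε₁ = true ∧ x₀ ∈ Z'
      · obtain ⟨rfl, rfl, hz⟩ := hc2
        have h3 : t⁻¹ * x₀ * t ∈ K := hZ (h2 x₀ hz)
        cases hw with
        | one =>
          refine Or.inl ?_
          have h4 : tpow t false * (x₀ * tpow t true * x₁) = (t⁻¹ * x₀ * t) * x₁ := by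
            unfold tpow
            simp only [if_true, Bool.false_eq_true, if_false]
            group
          rw [h4]
          exact K.mul_mem h3 hx1
        | cons _ ε' _ x g hx hg hc hc' =>
          refine Or.inr ⟨_, _, (t⁻¹ * x₀ * t) * x, K.mul_mem h3 hx, x₁, hx1, g, hg, ?_⟩
          unfold tpow
          simp only [if_true, Bool.false_eq_true, if_false]
          group
      · refine Or.inr ⟨ε, e, 1, K.one_mem, x₁, hx1, tpow t ε * x₀ * w,
          HW.cons ε ε₁ e x₀ w hx0 hw (fun a b c => hc1 ⟨a, b, c⟩) (fun a b c => hc2 ⟨a, b, c⟩), ?_⟩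
        group

theorem tHW : S_HW := by
  intro Q _ K Z Z' t hK hZ hZ' h1 h2 g
  have hg : g ∈ Subgroup.closure ((K : Set Q) ∪ {t}) := by
    rw [Subgroup.closure_union, Subgroup.closure_eq, ← Subgroup.zpowers_eq_closure, hK]
    trivial
  have key : ∀ x ∈ Subgroup.closure ((K : Set Q) ∪ {t}),
      (∀ h, HWN K Z Z' t h → HWN K Z Z' t (x * h)) ∧
      (∀ h, HWN K Z Z' t h → HWN K Z Z' t (x⁻¹ * h)) := by
    intro x hx
    induction hx using Subgroup.closure_induction with
    | mem x hx =>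
      rcases hx with hx | hx
      · exact ⟨fun h hh => HW_left K Z Z' t x h hx hh,
          fun h hh => HW_left K Z Z' t x⁻¹ h (K.inv_mem hx) hh⟩
      · rw [Set.mem_singleton_iff] at hx
        subst hx
        refine ⟨fun h hh => ?_, fun h hh => ?_⟩
        · have h3 := HW_t K Z Z' x hZ hZ' h1 h2 true h hh
          unfold tpow at h3
          rw [if_pos rfl] at h3
          exact h3
        · have h3 := HW_t K Z Z' x hZ hZ' h1 h2 false h hh
          unfold tpow at h3
          rw [if_neg (by decide)] at h3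
          exact h3
    | one => exact ⟨fun h hh => by rw [one_mul]; exact hh, fun h hh => by rw [inv_one, one_mul]; exact hh⟩
    | mul x y _ _ hx hy =>
      refine ⟨fun h hh => ?_, fun h hh => ?_⟩
      · rw [mul_assoc]
        exact hx.1 _ (hy.1 _ hh)
      · rw [mul_inv_rev, mul_assoc]
        exact hy.2 _ (hx.2 _ hh)
    | inv x _ hx =>
      refine ⟨hx.2, fun h hh => ?_⟩
      rw [inv_inv]
      exact hx.1 h hh
  have h3 := (key g hg).1 1 (Or.inl K.one_mem)
  rw [mul_one] at h3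
  exact h3

end Pool.Agent.MPEF
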