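import Pool.Agent.Lib.MP_ef3f0f_gt.G.Spec

set_option autoImplicit false

/-! MP_ef3f0f_gt, part IV, module StAmal: gluing of a pair of pants to a state. -/

namespace Pool.Agent.MPEF

open scoped Pointwise commutatorElement

private theorem StAmal_map {h k : ℕ} {Γ Δ : Type} [Group Γ] [Group Δ] (f : Γ →* Δ)
    (x : Fin h × Bool → Γ) (s : Fin k → Γ) :
    f (sfVal x s) = sfVal (fun i => f (x i)) (fun j => f (s j)) := by
  unfold sfVal
  rw [map_mul, map_list_prod, map_list_prod, List.map_ofFn, List.map_ofFn]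
  have h1 : (⇑f ∘ fun i : Fin h => ⁅x (i, false), x (i, true)⁆) =
      fun i : Fin h => ⁅f (x (i, false)), f (x (i, true))⁆ :=
    funext fun i => map_commutatorElement f _ _
  rw [h1]
  rfl

private theorem StAmal_cons {h k : ℕ} {Γ : Type} [Group Γ] (x : Fin h × Bool → Γ) (a : Γ)
    (s : Fin k → Γ) :
    sfVal x (Fin.cons a s : Fin (k + 1) → Γ) =
      (List.ofFn fun i : Fin h => ⁅x (i, false), x (i, true)⁆).prod * (a * (List.ofFn s).prod) := by
  unfold sfVal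
  rw [List.ofFn_succ, List.prod_cons]
  rfl

private theorem StAmal_cons₂ {h k : ℕ} {Γ : Type} [Group Γ] (x : Fin h × Bool → Γ) (a b : Γ)
    (s : Fin k → Γ) :
    sfVal x (Fin.cons a (Fin.cons b s : Fin (k + 1) → Γ) : Fin (k + 2) → Γ) =
      sfVal x (Fin.cons (a * b) s : Fin (k + 1) → Γ) := by
  rw [StAmal_cons, StAmal_cons, List.ofFn_succ, List.prod_cons]
  have h1 : (fun i : Fin k => (Fin.cons b s : Fin (k + 1) → Γ) i.succ) = s := rfl
  rw [h1]
  have h2 : (Fin.cons b s : Fin (k + 1) → Γ) 0 = b := rfl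
  rw [h2, mul_assoc a b]

private theorem StAmal_three {Γ : Type} [Group Γ] (x : Fin 0 × Bool → Γ) (s : Fin 3 → Γ) :
    sfVal x s = s 0 * (s 1 * s 2) := by
  unfold sfVal
  simp [List.ofFn_succ]

/-- the index map for the reindexing of the result -/
private def StAmal_f (k : ℕ) : Fin (k + 2) → Fin k ⊕ Fin 2 :=
  Fin.cons (Sum.inr 0) (Fin.cons (Sum.inr 1) fun j : Fin k => Sum.inl j)

private theorem StAmal_f_inj (k : ℕ) : Function.Injective (StAmal_f k) := by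
  intro i j
  refine Fin.cases ?_ (fun i => ?_) i
  · refine Fin.cases ?_ (fun j => ?_) j
    · intro _
      rfl
    · refine Fin.cases ?_ (fun j => ?_) j
      · intro h
        have h1 : (Sum.inr 0 : Fin k ⊕ Fin 2) = Sum.inr 1 := h
        exact absurd (Sum.inr.inj h1) (by decide)
      · intro h
        have h1 : (Sum.inr 0 : Fin k ⊕ Fin 2) = Sum.inl j := h
        exact absurd h1 (by simp)
  · refine Fin.cases ?_ (fun i => ?_) i
    · refine Fin.cases ?_ (fun j => ?_) j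
      · intro h
        have h1 : (Sum.inr 1 : Fin k ⊕ Fin 2) = Sum.inr 0 := h
        exact absurd (Sum.inr.inj h1) (by decide)
      · refine Fin.cases ?_ (fun j => ?_) j
        · intro _
          rfl
        · intro h
          have h1 : (Sum.inr 1 : Fin k ⊕ Fin 2) = Sum.inl j := h
          exact absurd h1 (by simp)
    · refine Fin.cases ?_ (fun j => ?_) j
      · intro h
        have h1 : (Sum.inl i : Fin k ⊕ Fin 2) = Sum.inr 0 := h
        exact absurd h1 (by simp)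
      · refine Fin.cases ?_ (fun j => ?_) j
        · intro h
          have h1 : (Sum.inl i : Fin k ⊕ Fin 2) = Sum.inr 1 := h
          exact absurd h1 (by simp)
        · intro h
          have h1 : (Sum.inl i : Fin k ⊕ Fin 2) = Sum.inl j := h
          rw [Sum.inl.inj h1]

private def StAmal_g (k : ℕ) : Option (Fin k) → Fin (k + 1) := fun o => o.elim 0 Fin.succ

private theorem StAmal_g_inj (k : ℕ) : Function.Injective (StAmal_g k) := by
  intro i j h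
  rcases i with _ | i
  · rcases j with _ | j
    · rfl
    · exact absurd h (Fin.succ_ne_zero j).symm
  · rcases j with _ | j
    · exact absurd h (Fin.succ_ne_zero i)
    · have h1 : Fin.succ i = Fin.succ j := h
      rw [Fin.succ_inj.1 h1]

theorem tStAmal : S_sf → S_SysMap → S_SysConj → S_Amal → S_StAmal := by
  intro hsf hmap hconj hamal P X Γ _ _ _ _ A hA h1N p h k c d hc hd hcd
  obtain ⟨ρ₁, hs1, hj1⟩ := hc
  obtain ⟨ρ₂₀, hs20, hj20⟩ := hd
  have hcj : IsConj (ρ₂₀ (sfS 0)) (ρ₁ (sfS 0))⁻¹ := by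
    have h1 : IsConj (ρ₁ (sfS 0)) (d 0)⁻¹ := (hj1 0).trans hcd
    obtain ⟨u, hu⟩ := isConj_iff.1 h1
    have h2 : IsConj (d 0) (ρ₁ (sfS 0))⁻¹ := by
      refine (isConj_iff.2 ⟨u, ?_⟩ : IsConj (ρ₁ (sfS 0))⁻¹ (d 0)).symm
      have h3 : d 0 = (u * ρ₁ (sfS 0) * u⁻¹)⁻¹ := by rw [hu, inv_inv]
      rw [h3]
      group
    exact (hj20 0).trans h2
  obtain ⟨t, ht⟩ := isConj_iff.1 hcj
  -- the representation of the pants
  obtain ⟨ρ₂, hρ₂⟩ : ∃ ρ₂ : SF 0 3 →* Γ, ∀ x, ρ₂ x = t * ρ₂₀ x * t⁻¹ :=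
    ⟨(MulAut.conj t).toMonoidHom.comp ρ₂₀, fun x => rfl⟩
  have hs2 : Sys A (p.comp ρ₂) (fun j : Fin 3 => (sfS j : SF 0 3)) := by
    have h1 := hconj P X (SF 0 3) (Fin 3) A hA (p.comp ρ₂₀) _ hs20 (p t)
    have h2 : p.comp ρ₂ = (MulAut.conj (p t)).toMonoidHom.comp (p.comp ρ₂₀) := by
      refine MonoidHom.ext (fun x => ?_)
      have h3 : (MulAut.conj (p t)).toMonoidHom.comp (p.comp ρ₂₀) x = p t * p (ρ₂₀ x) * (p t)⁻¹ := rfl
      rw [h3, MonoidHom.comp_apply, hρ₂, map_mul, map_mul, map_inv]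
    rw [h2]
    exact h1
  have hρ20 : ρ₂ (sfS 0) = (ρ₁ (sfS 0))⁻¹ := by rw [hρ₂, ht]
  -- the relations
  have hr1 : sfVal (fun i => ρ₁ (sfX i)) (fun j => ρ₁ (sfS j)) = 1 := by
    rw [← StAmal_map, (hsf h (k + 1)).2.1, map_one]
  have hr2 : ρ₂ (sfS 0) * (ρ₂ (sfS 1) * ρ₂ (sfS 2)) = 1 := by
    have h1 := StAmal_map ρ₂ (sfX : Fin 0 × Bool → SF 0 3) sfS
    rw [(hsf 0 3).2.1, map_one, StAmal_three] at h1
    exact h1.symm
  have hr12 : ρ₂ (sfS 1) * ρ₂ (sfS 2) = ρ₁ (sfS 0) := by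
    rw [hρ20] at hr2
    exact (inv_mul_eq_one.1 hr2).symm
  have hfun1 : (fun j : Fin (k + 1) => ρ₁ (sfS j)) =
      Fin.cons (ρ₁ (sfS 0)) (fun j : Fin k => ρ₁ (sfS j.succ)) := by
    funext j
    refine Fin.cases ?_ (fun j => ?_) j
    · rfl
    · rfl
  -- the glued representation
  obtain ⟨ρ, hρX, hρS⟩ := (hsf h (k + 2)).1 Γ (fun i => ρ₁ (sfX i))
    (Fin.cons (ρ₂ (sfS 1)) (Fin.cons (ρ₂ (sfS 2)) fun j : Fin k => ρ₁ (sfS j.succ))) (by
      rw [StAmal_cons₂, hr12, ← hfun1, hr1])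
  have hρ0 : ρ (sfS 0) = ρ₂ (sfS 1) := hρS 0
  have hρ1 : ρ (sfS 1) = ρ₂ (sfS 2) := hρS 1
  have hρs : ∀ j : Fin k, ρ (sfS j.succ.succ) = ρ₁ (sfS j.succ) := fun j => hρS j.succ.succ
  -- the maps j₁, j₂
  have hrel : sfVal (sfX : Fin h × Bool → SF h (k + 2)) (Fin.cons (sfS 0 * sfS 1)
      (fun j : Fin k => (sfS j.succ.succ : SF h (k + 2)))) = 1 := by
    rw [← StAmal_cons₂]
    have h1 : (Fin.cons (sfS 0) (Fin.cons (sfS 1) fun j : Fin k => (sfS j.succ.succ : SF h (k + 2))) :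
        Fin (k + 2) → SF h (k + 2)) = sfS := by
      funext j
      refine Fin.cases ?_ (fun j => ?_) j
      · rfl
      · refine Fin.cases ?_ (fun j => ?_) j
        · rfl
        · rfl
    rw [h1]
    exact (hsf h (k + 2)).2.1
  obtain ⟨j₁, hj₁X, hj₁S⟩ := (hsf h (k + 1)).1 (SF h (k + 2)) (fun i => sfX i)
    (Fin.cons (sfS 0 * sfS 1) (fun j : Fin k => (sfS j.succ.succ : SF h (k + 2)))) hrel
  have hj₁0 : j₁ (sfS 0) = sfS 0 * sfS 1 := hj₁S 0
  have hj₁s : ∀ j : Fin k, j₁ (sfS j.succ) = sfS j.succ.succ := fun j => hj₁S j.succ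
  obtain ⟨j₂, -, hj₂S⟩ := (hsf 0 3).1 (SF h (k + 2)) (fun _ => 1)
    (Fin.cons (sfS 0 * sfS 1)⁻¹ (Fin.cons (sfS 0) (Fin.cons (sfS 1) (fun _ : Fin 0 => 1)))) (by
      rw [StAmal_three]
      exact inv_mul_cancel _)
  have hj₂0 : j₂ (sfS 0) = (sfS 0 * sfS 1)⁻¹ := hj₂S 0
  have hj₂1 : j₂ (sfS 1) = sfS 0 := hj₂S 1
  have hj₂2 : j₂ (sfS 2) = sfS 1 := hj₂S 2
  have hc1 : ρ.comp j₁ = ρ₁ := by
    refine (hsf h (k + 1)).2.2.2 Γ _ _ (fun i => ?_) (fun j => ?_)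
    · rw [MonoidHom.comp_apply, hj₁X, hρX]
    · refine Fin.cases ?_ (fun j => ?_) j
      · rw [MonoidHom.comp_apply, hj₁0, map_mul, hρ0, hρ1, hr12]
      · rw [MonoidHom.comp_apply, hj₁s, hρs]
  have hc2 : ρ.comp j₂ = ρ₂ := by
    refine (hsf 0 3).2.2.2 Γ _ _ (fun i => i.1.elim0) (fun j => ?_)
    refine Fin.cases ?_ (fun j => ?_) j
    · rw [MonoidHom.comp_apply, hj₂0, map_inv, map_mul, hρ0, hρ1, hr12, hρ20]
    · refine Fin.cases ?_ (fun j => ?_) j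
      · have h1 : (ρ.comp j₂) (sfS 1) = ρ₂ (sfS 1) := by
          rw [MonoidHom.comp_apply, hj₂1, hρ0]
        exact h1
      · refine Fin.cases ?_ (fun j => j.elim0) j
        have h1 : (ρ.comp j₂) (sfS 2) = ρ₂ (sfS 2) := by
          rw [MonoidHom.comp_apply, hj₂2, hρ1]
        exact h1
  -- the systems, reindexed
  have hS1 : Sys A (p.comp ρ₁) (fun o : Option (Fin k) => (sfS (StAmal_g k o) : SF h (k + 1))) :=
    hmap P X (SF h (k + 1)) (SF h (k + 1)) (Fin (k + 1)) (Option (Fin k)) A hA (p.comp ρ₁) _ hs1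
      (MulEquiv.refl _) (StAmal_g k) (StAmal_g_inj k) _ (fun i => ⟨1, by
        rw [one_mul, inv_one, mul_one]
        rfl⟩)
  have hS2 : Sys A (p.comp ρ₂) (fun o : Option (Fin 2) => (sfS (StAmal_g 2 o) : SF 0 3)) :=
    hmap P X (SF 0 3) (SF 0 3) (Fin 3) (Option (Fin 2)) A hA (p.comp ρ₂) _ hs2
      (MulEquiv.refl _) (StAmal_g 2) (StAmal_g_inj 2) _ (fun i => ⟨1, by
        rw [one_mul, inv_one, mul_one]
        rfl⟩)
  have hS := hamal P X (SF h (k + 1)) (SF 0 3) (SF h (k + 2)) (Fin k) (Fin 2) A hA h1N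
    (p.comp ρ₁) _ (p.comp ρ₂) _ (p.comp ρ) j₁ j₂ hS1 hS2
    (fun x => by rw [← hc1]; rfl) (fun x => by rw [← hc2]; rfl)
    (by
      have h1 : j₂ (sfS 0) = (j₁ (sfS 0))⁻¹ := by rw [hj₂0, hj₁0]
      exact h1)
    (by
      rw [eq_top_iff, ← (hsf h (k + 2)).2.2.1, Subgroup.closure_le]
      rintro y (⟨i, rfl⟩ | ⟨j, rfl⟩)
      · exact (le_sup_left : j₁.range ≤ j₁.range ⊔ j₂.range) ⟨sfX i, hj₁X i⟩
      · refine Fin.cases ?_ (fun j => ?_) j
        · exact (le_sup_right : j₂.range ≤ j₁.range ⊔ j₂.range) ⟨sfS 1, hj₂1⟩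
        · refine Fin.cases ?_ (fun j => ?_) j
          · exact (le_sup_right : j₂.range ≤ j₁.range ⊔ j₂.range) ⟨sfS 2, hj₂2⟩
          · exact (le_sup_left : j₁.range ≤ j₁.range ⊔ j₂.range) ⟨sfS j.succ, hj₁s j⟩)
  refine ⟨ρ, ?_, fun j => ?_⟩
  · refine hmap P X (SF h (k + 2)) (SF h (k + 2)) (Fin k ⊕ Fin 2) (Fin (k + 2)) A hA (p.comp ρ) _ hS
      (MulEquiv.refl _) (StAmal_f k) (StAmal_f_inj k) _ (fun i => ⟨1, ?_⟩)
    rw [one_mul, inv_one, mul_one]
    refine Fin.cases ?_ (fun i => ?_) i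
    · exact hj₂1.symm
    · refine Fin.cases ?_ (fun i => ?_) i
      · exact hj₂2.symm
      · exact (hj₁s i).symm
  · have h3 : ∀ j : Fin 3, IsConj (ρ₂ (sfS j)) (d j) := by
      intro j
      refine IsConj.trans ?_ (hj20 j)
      exact (isConj_iff.2 ⟨t, (hρ₂ _).symm⟩ : IsConj (ρ₂₀ (sfS j)) (ρ₂ (sfS j))).symm
    refine Fin.cases ?_ (fun j => ?_) j
    · rw [hρ0]
      exact h3 1
    · refine Fin.cases ?_ (fun j => ?_) j
      · have h4 : IsConj (ρ (sfS 1)) (d 2) := by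
          rw [hρ1]
          exact h3 2
        exact h4
      · rw [hρs]
        exact hj1 j.succ

end Pool.Agent.MPEF
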