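import Pool.Agent.Lib.MP_ef3f0f_gt.G.Spec

set_option autoImplicit false

namespace Pool.Agent.MPEF

open scoped Pointwise commutatorElement

theorem tSysConj : S_SysConj := by
  intro P X Q κ _ _ _ _ A hA ρ b hS t
  have hρ : ∀ g, ((MulAut.conj t).toMonoidHom.comp ρ) g = t * ρ g * t⁻¹ := fun g => rfl
  refine ⟨?_, ?_, ?_, hS.cos⟩
  · intro i
    rw [hρ]
    exact hA.conj t _ (hS.hy i)
  · intro g hg
    rw [hρ] at hg
    apply hS.inj
    have h1 := hA.Nconj t⁻¹ _ hg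
    have h2 : t⁻¹ * (t * ρ g * t⁻¹) * t⁻¹⁻¹ = ρ g := by group
    rwa [h2] at h1
  · intro g i j hne
    rw [hρ, hρ, hρ, hA.Iconj t _ (hS.hy i), hA.Iconj t _ (hS.hy j), smul_smul] at hne
    apply hS.dis g i j
    have h2 : t * ρ g * t⁻¹ * t = t * ρ g := by group
    rw [h2, mul_smul, ← Set.smul_set_inter] at hne
    exact Set.smul_set_nonempty.mp hne

end Pool.Agent.MPEF
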