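import Pool.Agent.Lib.MP_ef3f0f_gt.G.Spec

set_option autoImplicit false

namespace Pool.Agent.MPEF

open scoped Pointwise commutatorElement

private theorem SysMap_zp {Q Q' : Type} [Group Q] [Group Q'] (θ : Q' ≃* Q) (b' g : Q') (b y : Q)
    (hy : θ b' = y * b * y⁻¹) :
    g ∈ Subgroup.zpowers b' ↔ y⁻¹ * θ g * y ∈ Subgroup.zpowers b := by
  constructor
  · rintro ⟨n, rfl⟩
    refine ⟨n, ?_⟩
    change b ^ n = y⁻¹ * θ (b' ^ n) * y
    rw [map_zpow, hy, conj_zpow]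
    group
  · rintro ⟨n, hn⟩
    change b ^ n = y⁻¹ * θ g * y at hn
    refine ⟨n, ?_⟩
    change b' ^ n = g
    apply θ.injective
    rw [map_zpow, hy, conj_zpow, hn]
    group

theorem tSysMap : S_SysMap := by
  intro P X Q Q' κ κ' _ _ _ _ _ A hA ρ b hS θ f hf b' hb'
  choose y hy using hb'
  have hρ : ∀ g, (ρ.comp θ.toMonoidHom) g = ρ (θ g) := fun g => rfl
  have hI : ∀ i, A.I (ρ (θ (b' i))) = ρ (y i) • A.I (ρ (b (f i))) := by
    intro i
    rw [hy, map_mul, map_mul, map_inv, hA.Iconj _ _ (hS.hy _)]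
  refine ⟨?_, ?_, ?_, ?_⟩
  · intro i
    rw [hρ, hy, map_mul, map_mul, map_inv]
    exact hA.conj _ _ (hS.hy _)
  · intro g hg
    rw [hρ] at hg
    have := hS.inj _ hg
    rwa [map_eq_one_iff θ θ.injective] at this
  · intro g i j hne
    rw [hρ, hρ, hρ, hI, hI, smul_smul] at hne
    obtain ⟨z, hz1, hz2⟩ := hne
    have h3 := hS.dis ((y j)⁻¹ * θ g * y i) (f i) (f j) ⟨(ρ (y j))⁻¹ • z, by
      rw [Set.mem_smul_set] at hz1
      obtain ⟨w, hw, hwz⟩ := hz1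
      refine ⟨w, hw, ?_⟩
      rw [← hwz, smul_smul]
      simp only [map_mul, map_inv, mul_assoc], by
      exact Set.mem_smul_set_iff_inv_smul_mem.mp hz2⟩
    have hij : i = j := hf h3.1
    subst hij
    refine ⟨rfl, ?_⟩
    rw [SysMap_zp θ (b' i) g _ _ (hy i)]
    exact h3.2
  · intro i
    obtain ⟨u, v, hu, hv, huv⟩ := hS.cos (f i)
    refine ⟨θ.symm (y i * u * (y i)⁻¹), θ.symm (y i * v * (y i)⁻¹), ?_, ?_, ?_⟩
    · rw [SysMap_zp θ (b' i) _ _ _ (hy i), MulEquiv.apply_symm_apply]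
      have h2 : (y i)⁻¹ * (y i * u * (y i)⁻¹) * y i = u := by group
      rwa [h2]
    · rw [SysMap_zp θ (b' i) _ _ _ (hy i), MulEquiv.apply_symm_apply]
      have h2 : (y i)⁻¹ * (y i * v * (y i)⁻¹) * y i = v := by group
      rwa [h2]
    · rw [SysMap_zp θ (b' i) _ _ _ (hy i), map_mul, map_inv, MulEquiv.apply_symm_apply,
        MulEquiv.apply_symm_apply]
      have h2 : (y i)⁻¹ * ((y i * u * (y i)⁻¹)⁻¹ * (y i * v * (y i)⁻¹)) * y i = u⁻¹ * v := by
        group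
      rwa [h2]

end Pool.Agent.MPEF
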