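import Pool.Agent.Lib.MP_ef3f0f_gt.G.Spec

set_option autoImplicit false

namespace Pool.Agent.MPEF

open scoped Pointwise commutatorElement

private theorem sf_val {h k : ℕ} {Γ : Type} [Group Γ] (φ : FreeGroup (SGen h k) →* Γ) :
    φ (sfRel h k) = sfVal (fun i => φ (FreeGroup.of (Sum.inl i)))
      (fun j => φ (FreeGroup.of (Sum.inr j))) := by
  unfold sfRel sfVal
  rw [map_mul, map_list_prod, map_list_prod, List.map_ofFn, List.map_ofFn]
  congr 1
  refine congrArg (fun l => (List.ofFn l).prod) (funext fun i => ?_)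
  simp only [Function.comp_apply]
  rw [map_commutatorElement]

theorem tsf : S_sf := by
  intro h k
  refine ⟨?_, ?_, ?_, ?_⟩
  · intro Γ _ x s hxs
    have hr : ∀ r ∈ ({sfRel h k} : Set (FreeGroup (SGen h k))),
        FreeGroup.lift (Sum.elim x s) r = 1 := by
      intro r hr
      rw [Set.mem_singleton_iff] at hr
      rw [hr, sf_val]
      simpa using hxs
    refine ⟨PresentedGroup.toGroup hr, ?_, ?_⟩
    · intro i
      exact PresentedGroup.toGroup.of hr
    · intro j
      exact PresentedGroup.toGroup.of hr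
  · have h1 := sf_val (h := h) (k := k) (PresentedGroup.mk {sfRel h k})
    have h2 : PresentedGroup.mk {sfRel h k} (sfRel h k) = 1 :=
      PresentedGroup.one_of_mem (Set.mem_singleton _)
    rw [h2] at h1
    exact h1.symm
  · have h1 := PresentedGroup.closure_range_of ({sfRel h k} : Set (FreeGroup (SGen h k)))
    rw [← h1]
    congr 1
    ext y
    constructor
    · rintro (⟨i, rfl⟩ | ⟨j, rfl⟩)
      · exact ⟨Sum.inl i, rfl⟩
      · exact ⟨Sum.inr j, rfl⟩
    · rintro ⟨i | j, rfl⟩
      · exact Or.inl ⟨i, rfl⟩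
      · exact Or.inr ⟨j, rfl⟩
  · intro Γ _ ρ ρ' h1 h2
    apply PresentedGroup.ext
    rintro (i | j)
    · exact h1 i
    · exact h2 j

end Pool.Agent.MPEF
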